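import Pool.Agent.H131DG.Primes

/-!
Counting integers with the help of two of their prime divisors.
-/

set_option autoImplicit false

namespace Pool.Agent.D0H85.CG

open Real Filter Topology

/-- few large primes divide an integer -/
theorem few_primes (N : ℝ) (hN : 1 < N) (F : ℕ) (d : ℤ) (hd : d ≠ 0) (hdF : |(d : ℝ)| < N ^ (F + 1))
    (P : Finset ℕ) (hP : ∀ p ∈ P, p.Prime ∧ N ≤ p ∧ (p : ℤ) ∣ d) : P.card ≤ F := by
  by_contra hcon
  push Not at hcon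
  have h3 : (∏ q ∈ P, q) ∣ d.natAbs := by
    refine Finset.prod_primes_dvd _ (fun q hq => (hP q hq).1.prime) fun q hq => ?_
    exact Int.natCast_dvd.1 (hP q hq).2.2
  have h4 := Nat.le_of_dvd (Int.natAbs_pos.2 hd) h3
  have h5 : N ^ P.card ≤ |(d : ℝ)| := by
    calc N ^ P.card = ∏ q ∈ P, N := by rw [Finset.prod_const]
      _ ≤ ∏ q ∈ P, (q : ℝ) := Finset.prod_le_prod (fun _ _ => by linarith) fun q hq => (hP q hq).2.1
      _ = ((∏ q ∈ P, q : ℕ) : ℝ) := by push_cast; rfl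
      _ ≤ (d.natAbs : ℝ) := by exact_mod_cast h4
      _ = |(d : ℝ)| := by rw [Nat.cast_natAbs, Int.cast_abs]
  have h6 : N ^ (F + 1) ≤ N ^ P.card := pow_le_pow_right₀ hN.le hcon
  linarith

/-- counting the images of pairs of primes -/
theorem pairs (A B : Finset ℕ) (N : ℝ) (hN : 1 < N) (F : ℕ) (f : ℕ → ℕ → ℤ)
    (hA : ∀ q ∈ A, q.Prime ∧ N ≤ q) (hB : ∀ g ∈ B, g.Prime ∧ N ≤ g)
    (hf : ∀ q ∈ A, ∀ g ∈ B, q ≠ g → f q g ≠ 0 ∧ (q : ℤ) ∣ f q g ∧ (g : ℤ) ∣ f q g ∧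
      |(f q g : ℝ)| < N ^ (F + 1)) (H : Finset ℤ)
    (hH : ∀ q ∈ A, ∀ g ∈ B, q ≠ g → f q g ∈ H) :
    A.card * B.card ≤ F * F * H.card + B.card := by
  classical
  set P : Finset (ℕ × ℕ) := (A ×ˢ B).filter (fun x => x.1 ≠ x.2) with hPdef
  have hP : ∀ x ∈ P, x.1 ∈ A ∧ x.2 ∈ B ∧ x.1 ≠ x.2 := by
    intro x hx
    rw [hPdef, Finset.mem_filter, Finset.mem_product] at hx
    exact ⟨hx.1.1, hx.1.2, hx.2⟩
  have h1 : P.card ≤ F * F * (P.image fun x => f x.1 x.2).card := by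
    refine Finset.card_le_mul_card_image _ _ fun d hd => ?_
    obtain ⟨x₀, hx₀, rfl⟩ := Finset.mem_image.1 hd
    obtain ⟨a1, a2, a3⟩ := hP x₀ hx₀
    obtain ⟨hd0, -, -, hdF⟩ := hf _ a1 _ a2 a3
    have h2 : P.filter (fun x => f x.1 x.2 = f x₀.1 x₀.2) ⊆
        (A.filter fun q : ℕ => (q : ℤ) ∣ f x₀.1 x₀.2) ×ˢ
          (B.filter fun g : ℕ => (g : ℤ) ∣ f x₀.1 x₀.2) := by
      intro x hx
      rw [Finset.mem_filter] at hx
      obtain ⟨b1, b2, b3⟩ := hP x hx.1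
      obtain ⟨-, c1, c2, -⟩ := hf _ b1 _ b2 b3
      rw [hx.2] at c1 c2
      rw [Finset.mem_product, Finset.mem_filter, Finset.mem_filter]
      exact ⟨⟨b1, c1⟩, b2, c2⟩
    refine (Finset.card_le_card h2).trans ?_
    rw [Finset.card_product]
    refine Nat.mul_le_mul ?_ ?_
    · refine few_primes N hN F _ hd0 hdF _ fun p hp => ?_
      rw [Finset.mem_filter] at hp
      exact ⟨(hA p hp.1).1, (hA p hp.1).2, hp.2⟩
    · refine few_primes N hN F _ hd0 hdF _ fun p hp => ?_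
      rw [Finset.mem_filter] at hp
      exact ⟨(hB p hp.1).1, (hB p hp.1).2, hp.2⟩
  have h3 : (P.image fun x => f x.1 x.2).card ≤ H.card := by
    refine Finset.card_le_card fun d hd => ?_
    obtain ⟨x, hx, rfl⟩ := Finset.mem_image.1 hd
    obtain ⟨b1, b2, b3⟩ := hP x hx
    exact hH _ b1 _ b2 b3
  have h4 : (A ×ˢ B).card ≤ P.card + B.card := by
    have h5 : A ×ˢ B ⊆ P ∪ B.image (fun g => (g, g)) := by
      intro x hx
      rw [Finset.mem_union]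
      by_cases h : x.1 = x.2
      · right
        rw [Finset.mem_product] at hx
        exact Finset.mem_image.2 ⟨x.2, hx.2, Prod.ext h.symm rfl⟩
      · left
        rw [hPdef, Finset.mem_filter]
        exact ⟨hx, h⟩
    refine (Finset.card_le_card h5).trans ((Finset.card_union_le _ _).trans ?_)
    exact Nat.add_le_add_left Finset.card_image_le _
  rw [Finset.card_product] at h4
  have h6 : F * F * (P.image fun x => f x.1 x.2).card ≤ F * F * H.card :=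
    Nat.mul_le_mul_left _ h3
  omega

theorem finite_abs_le (G : Set ℤ) (X : ℝ) : {d : ℤ | d ∈ G ∧ |(d : ℝ)| ≤ X}.Finite := by
  refine (Set.finite_Icc (-⌈X⌉) ⌈X⌉).subset fun d hd => ?_
  obtain ⟨-, hd⟩ := hd
  rw [abs_le] at hd
  have h9 := Int.le_ceil X
  constructor
  · have : (-(⌈X⌉ : ℝ)) ≤ d := by linarith
    exact_mod_cast this
  · have : (d : ℝ) ≤ ⌈X⌉ := by linarith
    exact_mod_cast this

theorem countB (E m : ℕ) (hE : 0 < E) (hm : 0 < m) (C : ℝ) (Q₀ : ℕ) (G : Set ℤ)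
    (hG : ∀ q g : ℕ, q.Prime → g.Prime → Q₀ ≤ q → Q₀ ≤ g → q ≠ g → g ≡ 1 [MOD m] →
      g ≤ 500 * q → ∃ d ∈ G, d ≠ 0 ∧ (q : ℤ) ∣ d ∧ (g : ℤ) ∣ d ∧ |(d : ℝ)| ≤ C * (q : ℝ) ^ E) :
    ∃ c X₀ : ℝ, 0 < c ∧ ∀ X : ℝ, X₀ ≤ X →
      c * X ^ (2 / (E : ℝ)) / (Real.log X) ^ 2 ≤ ({d : ℤ | d ∈ G ∧ |(d : ℝ)| ≤ X}.ncard : ℝ) := by
  classical
  obtain ⟨c₁, hc₁, N₁, h₁⟩ := Pool.Agent.H131DG.class_primes 1 one_pos
  obtain ⟨c₂, hc₂, N₂, h₂⟩ := Pool.Agent.H131DG.class_primes m hm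
  set C' : ℝ := max C 1 with hC'
  have hC'1 : 1 ≤ C' := le_max_right _ _
  have hER : (0 : ℝ) < E := by exact_mod_cast hE
  choose! f hfG hf0 hfq hfg hfC using hG
  -- a statement for natural numbers
  have key : ∀ᶠ N : ℕ in atTop, ∀ X : ℝ, C' * (N : ℝ) ^ E ≤ X →
      c₁ * c₂ / 2 * (N / Real.log N) ^ 2 ≤
        (2 * E : ℕ) * (2 * E : ℕ) * ({d : ℤ | d ∈ G ∧ |(d : ℝ)| ≤ X}.ncard : ℝ) := by
    have e1 : ∀ᶠ N : ℕ in atTop, 1 ≤ c₁ / 2 * ((N : ℝ) / Real.log N) := by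
      have h3 : Tendsto (fun x : ℝ => x / Real.log x) atTop atTop := by
        have h4 := (tendsto_exp_div_pow_atTop 1).comp Real.tendsto_log_atTop
        refine h4.congr' ?_
        filter_upwards [eventually_gt_atTop 0] with x hx
        simp only [Function.comp, pow_one]
        rw [Real.exp_log hx]
      have h5 := ((h3.comp tendsto_natCast_atTop_atTop).const_mul_atTop
        (show 0 < c₁ / 2 by positivity)).eventually_ge_atTop 1
      simpa [Function.comp] using h5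
    have e2 : ∀ᶠ N : ℕ in atTop, 500 * ((Q₀ : ℝ) + 1) ≤ N :=
      tendsto_natCast_atTop_atTop.eventually_ge_atTop _
    have e3 : ∀ᶠ N : ℕ in atTop, C' * 500 ^ (2 * E + 1) + 500 < (N : ℝ) :=
      tendsto_natCast_atTop_atTop.eventually_gt_atTop _
    filter_upwards [e1, e2, e3, eventually_ge_atTop N₁, eventually_ge_atTop N₂] with N hN1 hN2 hN3
      hN4 hN5 X hX
    have hNpos : (0 : ℝ) < N := by
      have : 0 ≤ C' * 500 ^ (2 * E + 1) := by positivity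
      linarith
    set y : ℕ := N / 500 with hy
    have hy5 : 500 * y ≤ N := Nat.mul_div_le N 500
    set A : Finset ℕ := (Finset.Icc 1 N).filter (fun q => q.Prime ∧ y < q ∧ q ≡ 1 [MOD 1]) with hA
    set B : Finset ℕ := (Finset.Icc 1 N).filter (fun q => q.Prime ∧ y < q ∧ q ≡ 1 [MOD m]) with hB
    have hAc := h₁ N hN4 y hy5
    have hBc := h₂ N hN5 y hy5
    rw [← hA] at hAc
    rw [← hB] at hBc
    have hy6 : ∀ q : ℕ, y < q → (N : ℝ) / 500 ≤ q ∧ N < 500 * q := by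
      intro q hq
      have h6 : N < 500 * q := by omega
      refine ⟨?_, h6⟩
      have h7 : (N : ℝ) < 500 * q := by exact_mod_cast h6
      linarith
    have hyQ : ∀ q : ℕ, y < q → Q₀ ≤ q := by
      intro q hq
      have h6 := (hy6 q hq).1
      have h7 : (Q₀ : ℝ) ≤ q := by linarith
      exact_mod_cast h7
    have hA' : ∀ q ∈ A, q.Prime ∧ y < q ∧ q ≤ N := by
      intro q hq
      rw [hA, Finset.mem_filter, Finset.mem_Icc] at hq
      exact ⟨hq.2.1, hq.2.2.1, hq.1.2⟩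
    have hB' : ∀ q ∈ B, q.Prime ∧ y < q ∧ q ≤ N ∧ q ≡ 1 [MOD m] := by
      intro q hq
      rw [hB, Finset.mem_filter, Finset.mem_Icc] at hq
      exact ⟨hq.2.1, hq.2.2.1, hq.1.2, hq.2.2.2⟩
    have hX' : ∀ q ∈ A, ∀ g ∈ B, q ≠ g → f q g ∈ G ∧ f q g ≠ 0 ∧ (q : ℤ) ∣ f q g ∧
        (g : ℤ) ∣ f q g ∧ |(f q g : ℝ)| ≤ C' * (N : ℝ) ^ E := by
      intro q hq g hg hqg
      obtain ⟨a1, a2, a3⟩ := hA' q hq
      obtain ⟨b1, b2, b3, b4⟩ := hB' g hg
      have b5 : g ≤ 500 * q := by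
        have := (hy6 q a2).2
        omega
      refine ⟨hfG q g a1 b1 (hyQ q a2) (hyQ g b2) hqg b4 b5,
        hf0 q g a1 b1 (hyQ q a2) (hyQ g b2) hqg b4 b5,
        hfq q g a1 b1 (hyQ q a2) (hyQ g b2) hqg b4 b5,
        hfg q g a1 b1 (hyQ q a2) (hyQ g b2) hqg b4 b5,
        (hfC q g a1 b1 (hyQ q a2) (hyQ g b2) hqg b4 b5).trans ?_⟩
      have h6 : (q : ℝ) ≤ N := by exact_mod_cast a3
      exact mul_le_mul (le_max_left _ _) (pow_le_pow_left₀ (by positivity) h6 E) (by positivity)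
        (by positivity)
    have hbig : C' * (N : ℝ) ^ E < ((N : ℝ) / 500) ^ (2 * E + 1) := by
      have h6 : C' * 500 ^ (2 * E + 1) < (N : ℝ) := by linarith
      rw [div_pow, lt_div_iff₀ (by positivity)]
      have h7 : (N : ℝ) ^ (2 * E + 1) = (N : ℝ) ^ E * ((N : ℝ) ^ E * N) := by ring
      rw [h7]
      have h8 : (1 : ℝ) ≤ (N : ℝ) ^ E := one_le_pow₀ (by
        have : 0 ≤ C' * 500 ^ (2 * E + 1) := by positivity
        linarith)
      calc C' * (N : ℝ) ^ E * 500 ^ (2 * E + 1) = (N : ℝ) ^ E * (C' * 500 ^ (2 * E + 1)) := by ring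
        _ < (N : ℝ) ^ E * N := mul_lt_mul_of_pos_left h6 (by positivity)
        _ ≤ (N : ℝ) ^ E * ((N : ℝ) ^ E * N) := by
            refine mul_le_mul_of_nonneg_left ?_ (by positivity)
            nlinarith
    have hfin := finite_abs_le G X
    have hp := pairs A B ((N : ℝ) / 500) (by
        have : 0 ≤ C' * 500 ^ (2 * E + 1) := by positivity
        linarith) (2 * E) f
      (fun q hq => ⟨(hA' q hq).1, (hy6 q (hA' q hq).2.1).1⟩)
      (fun q hq => ⟨(hB' q hq).1, (hy6 q (hB' q hq).2.1).1⟩)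
      (fun q hq g hg hqg => by
        obtain ⟨-, c1, c2, c3, c4⟩ := hX' q hq g hg hqg
        exact ⟨c1, c2, c3, c4.trans_lt hbig⟩) hfin.toFinset
      (fun q hq g hg hqg => by
        obtain ⟨c0, -, -, -, c4⟩ := hX' q hq g hg hqg
        rw [Set.Finite.mem_toFinset]
        exact ⟨c0, c4.trans hX⟩)
    rw [← Set.ncard_eq_toFinset_card _ hfin] at hp
    have hp' : (A.card : ℝ) * B.card ≤
        (2 * E : ℕ) * (2 * E : ℕ) * ({d : ℤ | d ∈ G ∧ |(d : ℝ)| ≤ X}.ncard : ℝ) + B.card := by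
      exact_mod_cast hp
    have hA1 : 1 ≤ (A.card : ℝ) / 2 := by linarith
    have hB0 : (0 : ℝ) ≤ B.card := Nat.cast_nonneg _
    have h9 : (A.card : ℝ) / 2 * B.card ≤
        (2 * E : ℕ) * (2 * E : ℕ) * ({d : ℤ | d ∈ G ∧ |(d : ℝ)| ≤ X}.ncard : ℝ) := by
      have : 1 * (B.card : ℝ) ≤ (A.card : ℝ) / 2 * B.card := mul_le_mul_of_nonneg_right hA1 hB0
      linarith
    refine le_trans ?_ h9
    have hNl : 0 ≤ (N : ℝ) / Real.log N := by
      by_contra h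
      push Not at h
      nlinarith
    calc c₁ * c₂ / 2 * (N / Real.log N) ^ 2
        = (c₁ * (N / Real.log N)) / 2 * (c₂ * (N / Real.log N)) := by ring
      _ ≤ (A.card : ℝ) / 2 * B.card := by
          refine mul_le_mul (by linarith) hBc (by positivity) (by positivity)
  -- real numbers
  have hten : Tendsto (fun X : ℝ => ⌊(X / C') ^ ((E : ℝ)⁻¹)⌋₊) atTop atTop := by
    refine tendsto_nat_floor_atTop.comp ((tendsto_rpow_atTop (by positivity)).comp ?_)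
    exact tendsto_id.atTop_div_const (by positivity)
  set K : ℝ := ((2 * E : ℕ) : ℝ) * ((2 * E : ℕ) : ℝ) with hK
  have hK0 : 0 < K := by
    rw [hK]
    have : (0 : ℝ) < ((2 * E : ℕ) : ℝ) := by exact_mod_cast (by omega : 0 < 2 * E)
    positivity
  refine ⟨c₁ * c₂ / 2 / K * (((2 * C') ^ ((E : ℝ)⁻¹) * 2)⁻¹) ^ 2, ?_⟩
  have hfin : ∀ᶠ X : ℝ in atTop, c₁ * c₂ / 2 / K * (((2 * C') ^ ((E : ℝ)⁻¹) * 2)⁻¹) ^ 2 *
      X ^ (2 / (E : ℝ)) / (Real.log X) ^ 2 ≤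
        ({d : ℤ | d ∈ G ∧ |(d : ℝ)| ≤ X}.ncard : ℝ) := by
    filter_upwards [hten.eventually key, hten.eventually_ge_atTop 2, eventually_gt_atTop 1,
      eventually_ge_atTop C'] with X hX1 hX2 hX3 hX4
    have hX0 : 0 < X := by linarith
    set N : ℕ := ⌊(X / C') ^ ((E : ℝ)⁻¹)⌋₊ with hN
    have hXC : 0 ≤ X / C' := by positivity
    have hNle : (N : ℝ) ≤ (X / C') ^ ((E : ℝ)⁻¹) := Nat.floor_le (by positivity)
    have hNX : C' * (N : ℝ) ^ E ≤ X := by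
      have h3 : (N : ℝ) ^ E ≤ ((X / C') ^ ((E : ℝ)⁻¹)) ^ E := pow_le_pow_left₀ (by positivity) hNle E
      rw [Real.rpow_inv_natCast_pow hXC hE.ne'] at h3
      calc C' * (N : ℝ) ^ E ≤ C' * (X / C') := mul_le_mul_of_nonneg_left h3 (by positivity)
        _ = X := by field_simp
    have h4 := hX1 X hNX
    have hN2 : (2 : ℝ) ≤ N := by exact_mod_cast hX2
    have hlogN : 0 < Real.log N := Real.log_pos (by linarith)
    have hlogX : 0 < Real.log X := Real.log_pos hX3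
    -- `N` from below
    have h5 : X ^ ((E : ℝ)⁻¹) * ((2 * C') ^ ((E : ℝ)⁻¹) * 2)⁻¹ ≤ N := by
      have h6 : (X / C') ^ ((E : ℝ)⁻¹) < N + 1 := Nat.lt_floor_add_one _
      have h7 : (X / C') ^ ((E : ℝ)⁻¹) ≤ 2 * N := by linarith
      have h8 : X ^ ((E : ℝ)⁻¹) = (X / C') ^ ((E : ℝ)⁻¹) * C' ^ ((E : ℝ)⁻¹) := by
        rw [← Real.mul_rpow hXC (by positivity)]
        congr 1
        field_simp
      have h9 : C' ^ ((E : ℝ)⁻¹) ≤ (2 * C') ^ ((E : ℝ)⁻¹) :=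
        Real.rpow_le_rpow (by positivity) (by linarith) (by positivity)
      have h10 : 0 < (2 * C') ^ ((E : ℝ)⁻¹) := Real.rpow_pos_of_pos (by positivity) _
      rw [mul_inv_le_iff₀ (by positivity), h8]
      calc (X / C') ^ ((E : ℝ)⁻¹) * C' ^ ((E : ℝ)⁻¹) ≤ (2 * N) * (2 * C') ^ ((E : ℝ)⁻¹) :=
            mul_le_mul h7 h9 (by positivity) (by positivity)
        _ = _ := by ring
    have h11 : Real.log N ≤ Real.log X := by
      refine Real.log_le_log (by linarith) ?_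
      have h12 : (N : ℝ) ≤ (N : ℝ) ^ E := by
        conv_lhs => rw [← pow_one (N : ℝ)]
        exact pow_le_pow_right₀ (by linarith) hE
      have h13 : (N : ℝ) ^ E ≤ C' * (N : ℝ) ^ E := by
        have : 0 ≤ (N : ℝ) ^ E := by positivity
        nlinarith
      linarith
    have h14 : X ^ ((E : ℝ)⁻¹) * ((2 * C') ^ ((E : ℝ)⁻¹) * 2)⁻¹ / Real.log X ≤
        N / Real.log N := div_le_div₀ (by positivity) h5 hlogN h11
    have h15 : (X ^ ((E : ℝ)⁻¹) * ((2 * C') ^ ((E : ℝ)⁻¹) * 2)⁻¹ / Real.log X) ^ 2 ≤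
        (N / Real.log N) ^ 2 := pow_le_pow_left₀ (by positivity) h14 2
    have h16 : X ^ (2 / (E : ℝ)) = (X ^ ((E : ℝ)⁻¹)) ^ 2 := by
      rw [← Real.rpow_natCast, ← Real.rpow_mul hX0.le]
      congr 1
      push_cast
      ring
    rw [h16]
    calc c₁ * c₂ / 2 / K * (((2 * C') ^ ((E : ℝ)⁻¹) * 2)⁻¹) ^ 2 *
          (X ^ ((E : ℝ)⁻¹)) ^ 2 / (Real.log X) ^ 2
        = (c₁ * c₂ / 2 * (X ^ ((E : ℝ)⁻¹) * ((2 * C') ^ ((E : ℝ)⁻¹) * 2)⁻¹ / Real.log X) ^ 2) /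
            K := by ring
      _ ≤ (c₁ * c₂ / 2 * (N / Real.log N) ^ 2) / K := by gcongr
      _ ≤ _ := by
          rw [div_le_iff₀ hK0]
          linarith
  obtain ⟨X₀, hX₀⟩ := eventually_atTop.1 hfin
  exact ⟨X₀, by positivity, hX₀⟩

end Pool.Agent.D0H85.CG
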