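import Pool.Agent.D0H87.SF.IDX

/-!
The discriminant of the field generated by a root of `L ∏ (X - a i) + S`.
-/

set_option autoImplicit false

namespace Pool.Agent.D0H85.CG

open Polynomial NumberField IsDedekindDomain Matrix

section int

variable {K : Type} [Field K] [NumberField K]

theorem val_int (v : HeightOneSpectrum (𝓞 K)) (z : ℤ) : v.valuation K (z : K) ≤ 1 := by
  have h := v.valuation_le_one (K := K) (z : 𝓞 K)
  simpa using h

/-- the integral elements -/
theorem integral_y {n : ℕ} (a : Fin n → ℤ) (L S : ℤ) (θ : K)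
    (hθ : (L : K) * ∏ i, (θ - (a i : K)) + (S : K) = 0) (T : Finset (Fin n)) :
    IsIntegral ℤ ((L : K) * ∏ i ∈ T, (θ - (a i : K))) := by
  classical
  obtain ⟨y, hy⟩ := HeightOneSpectrum.mem_integers_of_valuation_le_one (R := 𝓞 K) K
    ((L : K) * ∏ i ∈ T, (θ - (a i : K))) (by
    intro v
    by_cases h : v.valuation K θ ≤ 1
    · rw [map_mul, map_prod]
      refine mul_le_one' (val_int v L) (Finset.prod_le_one' fun i _ => ?_)
      exact (Valuation.map_sub _ _ _).trans (max_le h (val_int v (a i)))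
    · rw [not_le] at h
      have h1 : ∀ i, v.valuation K (θ - (a i : K)) = v.valuation K θ := fun i =>
        Valuation.map_sub_eq_of_lt_left _ ((val_int v (a i)).trans_lt h)
      have h2 : (L : K) * ∏ i, (θ - (a i : K)) = -(S : K) := by linear_combination hθ
      have h3 : v.valuation K ((L : K) * ∏ i, (θ - (a i : K))) ≤ 1 := by
        rw [h2, Valuation.map_neg]
        exact val_int v S
      rw [map_mul, map_prod, Finset.prod_congr rfl fun i _ => h1 i, Finset.prod_const] at h3 ⊢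
      refine le_trans (mul_le_mul_right (pow_le_pow_right₀ h.le (Finset.card_le_univ T)) _) ?_
      rw [Finset.card_univ] at h3
      exact h3)
  rw [← hy]
  exact (RingOfIntegers.isIntegral_coe y)

end int

/-- the Newton polynomials -/
noncomputable def nw {n : ℕ} (a : Fin n → ℤ) (j : ℕ) : ℚ[X] :=
  ∏ i ∈ Finset.univ.filter (fun i : Fin n => (i : ℕ) < j), (X - C (a i : ℚ))

theorem nw_monic {n : ℕ} (a : Fin n → ℤ) (j : ℕ) : (nw a j).Monic :=
  monic_prod_of_monic _ _ fun i _ => monic_X_sub_C _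

theorem nw_natDegree {n : ℕ} (a : Fin n → ℤ) (j : ℕ) (hj : j ≤ n) : (nw a j).natDegree = j := by
  unfold nw
  rw [natDegree_prod_of_monic _ _ fun i _ => monic_X_sub_C _]
  simp only [natDegree_X_sub_C, Finset.sum_const, smul_eq_mul, mul_one]
  rw [Fin.card_filter_val_lt]
  exact min_eq_right hj

/-- **The discriminant.** -/
theorem disc_le {K : Type} [Field K] [NumberField K] {n : ℕ} (a : Fin (n + 1) → ℤ) (L S : ℤ)
    (hL : L ≠ 0) (θ : K) (hfr : Module.finrank ℚ K = n + 1)
    (hθ : (L : K) * ∏ i, (θ - (a i : K)) + (S : K) = 0)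
    (hgen : IntermediateField.adjoin ℚ {θ} = ⊤) (B : ℝ) (hB : 1 ≤ B)
    (hconj : ∀ (τ : K →+* ℂ) (i : Fin (n + 1)), ‖τ θ - (a i : ℂ)‖ ≤ B) :
    ((|discr K| : ℤ) : ℝ) ≤ (((n + 1).factorial : ℝ) * (|(L : ℝ)| * B ^ (n + 1)) ^ n) ^ 2 := by
  classical
  have hint : IsIntegral ℚ θ := Algebra.IsIntegral.isIntegral θ
  obtain ⟨b, hb⟩ : ∃ b : Module.Basis (Fin (n + 1)) ℚ K, ∀ i, b i = θ ^ (i : ℕ) := by
    let pb := IntermediateField.adjoin.powerBasis hint
    let e : IntermediateField.adjoin ℚ {θ} ≃ₐ[ℚ] K :=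
      (IntermediateField.equivOfEq hgen).trans IntermediateField.topEquiv
    let pb' := pb.map e
    have hdim : pb'.dim = n + 1 := by
      rw [← hfr]
      exact pb'.finrank.symm
    refine ⟨pb'.basis.reindex (finCongr hdim), fun i => ?_⟩
    rw [Module.Basis.reindex_apply, PowerBasis.coe_basis]
    have h1 : pb'.gen = θ := by
      show e pb.gen = θ
      rw [IntermediateField.adjoin.powerBasis_gen]
      rfl
    rw [h1]
    rfl
  have hL0 : (L : ℚ) ≠ 0 := by exact_mod_cast hL
  let P : Matrix (Fin (n + 1)) (Fin (n + 1)) ℚ := Matrix.of fun i j =>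
    if (j : ℕ) = 0 then (if (i : ℕ) = 0 then 1 else 0) else (L : ℚ) * (nw a j).coeff (i : ℕ)
  have hPdet : P.det = (L : ℚ) ^ n := by
    have htri : P.BlockTriangular id := by
      intro i j hij
      simp only [id] at hij
      have h3 : (j : ℕ) < (i : ℕ) := hij
      simp only [P, Matrix.of_apply]
      split_ifs with h1 h2
      · omega
      · rfl
      · rw [coeff_eq_zero_of_natDegree_lt, mul_zero]
        rw [nw_natDegree a j (by have := j.2; omega)]
        exact h3
    rw [Matrix.det_of_isUpperTriangular htri, Fin.prod_univ_succ]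
    have h0 : P 0 0 = 1 := by simp [P]
    have h1 : ∀ i : Fin n, P i.succ i.succ = (L : ℚ) := by
      intro i
      simp only [P, Matrix.of_apply, Fin.val_succ]
      rw [if_neg (by omega)]
      have h2 : (nw a ((i : ℕ) + 1)).coeff ((i : ℕ) + 1) = 1 := by
        have h3 := nw_natDegree a ((i : ℕ) + 1) (by have := i.2; omega)
        have h4 := nw_monic a ((i : ℕ) + 1)
        rw [Monic, leadingCoeff, h3] at h4
        exact h4
      rw [h2, mul_one]
    rw [h0, one_mul, Finset.prod_congr rfl fun i _ => h1 i, Finset.prod_const, Finset.card_univ,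
      Fintype.card_fin]
  set y : Fin (n + 1) → K := (b : Fin (n + 1) → K) ᵥ* (P.map (algebraMap ℚ K)) with hy
  have hy0 : y 0 = 1 := by
    rw [hy]
    simp only [Matrix.vecMul, dotProduct, Matrix.map_apply, P, Matrix.of_apply, Fin.val_zero,
      if_true, hb]
    rw [Finset.sum_eq_single 0]
    · simp
    · intro i _ hi
      rw [if_neg (show ¬ (i : ℕ) = 0 from fun h => hi (Fin.ext h)), map_zero, mul_zero]
    · intro h
      exact absurd (Finset.mem_univ _) h
  have hyj : ∀ j : Fin (n + 1), (j : ℕ) ≠ 0 → y j = (L : K) *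
      ∏ i ∈ Finset.univ.filter (fun i : Fin (n + 1) => (i : ℕ) < (j : ℕ)), (θ - (a i : K)) := by
    intro j hj
    have h1 : ∏ i ∈ Finset.univ.filter (fun i : Fin (n + 1) => (i : ℕ) < (j : ℕ)),
        (θ - (a i : K)) = aeval θ (nw a j) := by
      unfold nw
      rw [map_prod]
      refine Finset.prod_congr rfl fun i _ => ?_
      rw [map_sub, aeval_X, aeval_C, map_intCast]
    rw [h1, aeval_eq_sum_range' (n := n + 1) (by
      rw [nw_natDegree a j (by have := j.2; omega)]
      exact j.2), ← Fin.sum_univ_eq_sum_range (fun i => (nw a j).coeff i • θ ^ i) (n + 1),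
      Finset.mul_sum, hy]
    simp only [Matrix.vecMul, dotProduct, Matrix.map_apply, P, Matrix.of_apply, if_neg hj, hb]
    refine Finset.sum_congr rfl fun i _ => ?_
    rw [map_mul, map_intCast, Algebra.smul_def]
    ring
  have hyint : ∀ i, IsIntegral ℤ (y i) := by
    intro j
    by_cases hj : (j : ℕ) = 0
    · have : j = 0 := Fin.ext hj
      rw [this, hy0]
      exact isIntegral_one
    · rw [hyj j hj]
      exact integral_y a L S θ hθ _
  have hdis : Algebra.discr ℚ y = ((L : ℚ) ^ n) ^ 2 * Algebra.discr ℚ b := by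
    rw [hy, Algebra.discr_of_matrix_vecMul, hPdet]
  have hdn : Algebra.discr ℚ y ≠ 0 := by
    rw [hdis]
    exact mul_ne_zero (pow_ne_zero 2 (pow_ne_zero n hL0)) (Algebra.discr_not_zero_of_basis ℚ b)
  have hle := Pool.Agent.D0H87.SF.IDX.discr_le' y hyint (by rw [Fintype.card_fin]; exact hfr.symm) hdn
  -- a basis
  have hli : LinearIndependent ℚ y := by
    by_contra h
    exact hdn (Algebra.discr_zero_of_not_linearIndependent ℚ h)
  let by' : Module.Basis (Fin (n + 1)) ℚ K :=
    basisOfLinearIndependentOfCardEqFinrank hli (by rw [Fintype.card_fin, hfr])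
  have hby : ∀ i, by' i = y i := fun i => by
    simp only [by', coe_basisOfLinearIndependentOfCardEqFinrank]
  have hbd := Pool.Agent.D0H15.SF.discr_bound by'
    (fun i : Fin (n + 1) => if (i : ℕ) = 0 then 1 else |(L : ℝ)| * B ^ (n + 1)) (by
    intro τ j
    rw [hby]
    split_ifs with hj
    · have : j = 0 := Fin.ext hj
      rw [this, hy0, map_one, norm_one]
    · rw [hyj j hj, map_mul, map_prod, norm_mul, norm_prod, map_intCast]
      have h1 : ‖((L : ℤ) : ℂ)‖ = |(L : ℝ)| := by
        rw [Complex.norm_intCast]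
      rw [h1]
      refine mul_le_mul_of_nonneg_left ?_ (abs_nonneg _)
      calc ∏ i ∈ Finset.univ.filter (fun i : Fin (n + 1) => (i : ℕ) < (j : ℕ)),
            ‖τ (θ - (a i : K))‖ ≤
          ∏ i ∈ Finset.univ.filter (fun i : Fin (n + 1) => (i : ℕ) < (j : ℕ)), B := by
            refine Finset.prod_le_prod (fun _ _ => norm_nonneg _) fun i _ => ?_
            rw [map_sub, map_intCast]
            exact hconj τ i
        _ ≤ B ^ (n + 1) := by
            rw [Finset.prod_const]
            refine pow_le_pow_right₀ hB ?_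
            refine (Finset.card_le_univ _).trans ?_
            rw [Fintype.card_fin])
  have hdb : Algebra.discr ℚ (by' : Fin (n + 1) → K) = Algebra.discr ℚ y := by
    congr 1
    funext i
    exact hby i
  rw [hdb, Fintype.card_fin, Fin.prod_univ_succ] at hbd
  have h5 : ((|discr K| : ℤ) : ℝ) ≤ ((|Algebra.discr ℚ y| : ℚ) : ℝ) := by
    have h6 : ((|discr K| : ℤ) : ℚ) ≤ |Algebra.discr ℚ y| := by
      rw [Int.cast_abs]
      exact hle
    exact_mod_cast (Rat.cast_le (K := ℝ)).2 h6
  refine h5.trans (hbd.trans (le_of_eq ?_))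
  simp

/-- bounds for the roots -/
theorem root_bound {n : ℕ} (a : Fin (n + 1) → ℤ) (v : ℝ) : ∃ B : ℝ, 1 ≤ B ∧ ∀ z : ℂ,
    ‖∏ i, (z - (a i : ℂ))‖ ≤ v → ∀ i, ‖z - (a i : ℂ)‖ ≤ B := by
  refine ⟨max 1 v + ∑ i, ∑ j, |((a i : ℝ)) - (a j : ℝ)|, ?_, fun z hz j => ?_⟩
  · have h1 : (0 : ℝ) ≤ ∑ i, ∑ j, |((a i : ℝ)) - (a j : ℝ)| :=
      Finset.sum_nonneg fun i _ => Finset.sum_nonneg fun j _ => abs_nonneg _
    have := le_max_left 1 v
    linarith
  · obtain ⟨i, hi⟩ : ∃ i, ‖z - (a i : ℂ)‖ ≤ max 1 v := by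
      by_contra h
      push Not at h
      have h1 : ‖∏ i, (z - (a i : ℂ))‖ = ∏ i, ‖z - (a i : ℂ)‖ := norm_prod _ _
      rw [h1, Fin.prod_univ_succ] at hz
      have h2 : 1 ≤ ∏ i : Fin n, ‖z - (a i.succ : ℂ)‖ := by
        have h6 := Finset.prod_le_prod (s := (Finset.univ : Finset (Fin n))) (f := fun _ => (1 : ℝ))
          (g := fun i => ‖z - (a i.succ : ℂ)‖) (fun _ _ => zero_le_one)
          fun i _ => ((le_max_left 1 v).trans (h i.succ).le)
        rwa [Finset.prod_const_one] at h6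
      have h3 := h 0
      have h4 : ‖z - (a 0 : ℂ)‖ ≤ ‖z - (a 0 : ℂ)‖ * ∏ i : Fin n, ‖z - (a i.succ : ℂ)‖ :=
        le_mul_of_one_le_right (norm_nonneg _) h2
      have h5 := le_max_right 1 v
      linarith
    have h1 : ‖z - (a j : ℂ)‖ ≤ ‖z - (a i : ℂ)‖ + ‖((a i : ℂ)) - (a j : ℂ)‖ := by
      have : z - (a j : ℂ) = (z - (a i : ℂ)) + ((a i : ℂ) - (a j : ℂ)) := by ring
      rw [this]
      exact norm_add_le _ _
    have h2 : ‖((a i : ℂ)) - (a j : ℂ)‖ = |((a i : ℝ)) - (a j : ℝ)| := by
      rw [← Int.cast_sub, Complex.norm_intCast, Int.cast_sub]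
    have h3 : |((a i : ℝ)) - (a j : ℝ)| ≤ ∑ i, ∑ j, |((a i : ℝ)) - (a j : ℝ)| :=
      (Finset.single_le_sum (f := fun j => |((a i : ℝ)) - (a j : ℝ)|)
        (fun j _ => abs_nonneg _) (Finset.mem_univ j)).trans
        (Finset.single_le_sum (f := fun i => ∑ j, |((a i : ℝ)) - (a j : ℝ)|)
        (fun i _ => Finset.sum_nonneg fun j _ => abs_nonneg _) (Finset.mem_univ i))
    rw [h2] at h1
    linarith

end Pool.Agent.D0H85.CG
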