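import Pool.Agent.D0H85.CG.SelB

/-!
The choice of `s` and `t` for two given primes `q` and `g` of the same size.
-/

set_option autoImplicit false

namespace Pool.Agent.D0H85.CG

open Pool.Agent.W289.CG

/-- four consecutive members of a progression in a long interval -/
theorem in_interval (z D : ℝ) (hD : 0 < D) (a b : ℝ) (hab : a + 4 * D < b) :
    ∃ j₀ : ℤ, ∀ j : ℕ, j < 4 → a < z + D * (j₀ + j) ∧ z + D * (j₀ + j) < b := by
  refine ⟨⌊(a - z) / D⌋ + 1, fun j hj => ?_⟩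
  have h1 := Int.lt_floor_add_one ((a - z) / D)
  have h2 := Int.floor_le ((a - z) / D)
  have hj' : (j : ℝ) ≤ 3 := by exact_mod_cast (by omega : j ≤ 3)
  have hj0 : (0 : ℝ) ≤ j := Nat.cast_nonneg j
  have h3 : D * ((a - z) / D) = a - z := by field_simp
  push_cast
  constructor
  · have h4 : D * ((a - z) / D) < D * ((⌊(a - z) / D⌋ : ℝ) + 1 + j) :=
      mul_lt_mul_of_pos_left (by linarith) hD
    linarith
  · have h4 : D * ((⌊(a - z) / D⌋ : ℝ) + 1 + j) ≤ D * ((a - z) / D + 4) :=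
      mul_le_mul_of_nonneg_left (by linarith) hD.le
    rw [mul_add D ((a - z) / D) 4, h3] at h4
    linarith

theorem selB (m : ℕ) (hm : 2 ≤ m) (M W s₀ t₀ : ℤ) (x y : ℝ) (hM : 0 < M) (hW : 0 < W)
    (hcop : IsCoprime s₀ M) (hMW : IsCoprime M W) (hx : 1 ≤ x) (hxy : x < y) :
    ∃ (Q₀ : ℕ) (C : ℝ), ∀ q g : ℕ, q.Prime → g.Prime → Q₀ ≤ q → Q₀ ≤ g → q ≠ g →
      g ≡ 1 [MOD m] → g ≤ 500 * q → ∃ s t : ℤ, M ∣ s - s₀ ∧ M ∣ t - t₀ ∧ 0 < s ∧
      IsCoprime s t ∧ x * s < t ∧ (t : ℝ) < y * s ∧ W ∣ s ∧ W ∣ t - 1 ∧ ¬ (q : ℤ) ∣ s ∧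
      (q : ℤ) ∣ t - s ∧ ¬ (q : ℤ) ^ 2 ∣ t - s ∧ ¬ (g : ℤ) ∣ s ∧ (g : ℤ) ∣ t ^ m - s ^ m ∧
      ¬ (g : ℤ) ^ 2 ∣ t ^ m - s ^ m ∧ (s : ℝ) ≤ C * q := by
  have hMWpos : 0 < M * W := mul_pos hM hW
  obtain ⟨x', hx1, hx2, hxx⟩ : ∃ x' : ℝ, 1 < x' ∧ x' < y ∧ x ≤ x' :=
    ⟨(x + y) / 2, by linarith, by linarith, by linarith⟩
  have hx'0 : 0 < x' - 1 := by linarith
  have hy0 : 0 < y - 1 := by linarith
  set lam : ℝ := 1 / (x' - 1) - 1 / (y - 1) with hlam
  have hlam0 : 0 < lam := by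
    rw [hlam, sub_pos]
    exact one_div_lt_one_div_of_lt hx'0 (by linarith)
  obtain ⟨u, v, huv⟩ := hMW
  set k₁ : ℤ := (t₀ - s₀) * (v * W) + u * M with hk₁
  have hk₁M : M ∣ k₁ - (t₀ - s₀) :=
    ⟨-(t₀ - s₀) * u + u, by rw [hk₁]; linear_combination (t₀ - s₀) * huv⟩
  have hk₁W : W ∣ k₁ - 1 := ⟨(t₀ - s₀) * v - v, by rw [hk₁]; linear_combination huv⟩
  have hgcd : 0 < Int.gcd k₁ (M * W) := Int.gcd_pos_of_ne_zero_right _ hMWpos.ne'
  obtain ⟨k₂, N₂, hkN, hk₂, hN₂⟩ := Int.exists_gcd_one hgcd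
  set g₀ : ℤ := (Int.gcd k₁ (M * W) : ℤ) with hg₀
  have hg₀pos : 0 < g₀ := Int.natCast_pos.2 hgcd
  have hN₂pos : 0 < N₂ := by
    rw [hN₂] at hMWpos
    exact pos_of_mul_pos_left hMWpos hg₀pos.le
  obtain ⟨V₀, hV₀⟩ : ∃ V₀ : ℕ, 2000 * (M * W : ℝ) / lam + (M * W : ℝ) < V₀ := exists_nat_gt _
  obtain ⟨V₁, hV₁⟩ := exists_v' k₂ N₂ hN₂pos (Int.isCoprime_iff_gcd_eq_one.2 hkN) (V₀ + 4)
  refine ⟨(M * W).natAbs + V₁ + m + 5, (g₀ : ℝ) * V₁ / (x' - 1),
    fun q g hq hg hqQ hgQ hqg hgm hgq => ?_⟩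
  have hqp : Prime (q : ℤ) := Nat.prime_iff_prime_int.1 hq
  have hgp : Prime (g : ℤ) := Nat.prime_iff_prime_int.1 hg
  have hqMW : ¬ (q : ℤ) ∣ M * W := not_dvd_of_lt hMWpos.ne' (by omega)
  have hgMW : ¬ (g : ℤ) ∣ M * W := not_dvd_of_lt hMWpos.ne' (by omega)
  have hqN₂ : ¬ (q : ℤ) ∣ N₂ := fun h => hqMW (by rw [hN₂]; exact h.mul_right _)
  have hqg₀ : ¬ (q : ℤ) ∣ g₀ := fun h => hqMW (by rw [hN₂]; exact h.mul_left _)
  have hgg₀ : ¬ (g : ℤ) ∣ g₀ := fun h => hgMW (by rw [hN₂]; exact h.mul_left _)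
  obtain ⟨w, hw, hwV₀, hwV₁, hwk⟩ := hV₁ q hq hqN₂
  have hwp : Prime (w : ℤ) := Nat.prime_iff_prime_int.1 hw
  have hMWR : (0 : ℝ) < M * W := by exact_mod_cast hMWpos
  have hwMW : ¬ (w : ℤ) ∣ M * W := by
    refine not_dvd_of_lt hMWpos.ne' ?_
    have h1 : (0 : ℝ) ≤ 2000 * (M * W : ℝ) / lam := by positivity
    have h2 : ((M * W : ℤ) : ℝ) < V₀ := by push_cast; linarith
    have h3 : M * W < V₀ := by exact_mod_cast h2
    omega
  have hqw : ¬ (q : ℤ) ∣ w := by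
    intro h
    have := Nat.le_of_dvd hw.pos (by exact_mod_cast h)
    omega
  have hgw : ¬ (g : ℤ) ∣ w := by
    intro h
    have := Nat.le_of_dvd hw.pos (by exact_mod_cast h)
    omega
  have hwq : ¬ (w : ℤ) ∣ q := by
    intro h
    have h1 : w ∣ q := by exact_mod_cast h
    have := (Nat.prime_dvd_prime_iff_eq hw hq).1 h1
    omega
  have hwg : ¬ (w : ℤ) ∣ g := by
    intro h
    have h1 : w ∣ g := by exact_mod_cast h
    have := (Nat.prime_dvd_prime_iff_eq hw hg).1 h1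
    omega
  have hqg' : ¬ (q : ℤ) ∣ g := by
    intro h
    have h1 : q ∣ g := by exact_mod_cast h
    exact hqg ((Nat.prime_dvd_prime_iff_eq hq hg).1 h1)
  have hgq' : ¬ (g : ℤ) ∣ q := by
    intro h
    have h1 : g ∣ q := by exact_mod_cast h
    exact hqg ((Nat.prime_dvd_prime_iff_eq hg hq).1 h1).symm
  set k : ℤ := g₀ * (q * w) with hk
  have hgk : ¬ (g : ℤ) ∣ k := by
    intro h
    rcases hgp.dvd_or_dvd h with h | h
    · exact hgg₀ h
    · rcases hgp.dvd_or_dvd h with h | h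
      · exact hgq' h
      · exact hgw h
  have hkk₁ : M * W ∣ k - k₁ := by
    have h1 : k - k₁ = g₀ * (q * w - k₂) := by rw [hk, hk₂]; ring
    rw [h1, hN₂, mul_comm N₂]
    exact mul_dvd_mul_left _ hwk
  obtain ⟨σ, hσ⟩ := exists_root g m hg hm hgm k hgk
  -- the residue class of `s`
  obtain ⟨w₁, w₂, hww⟩ := coprime_of_prime hg hgMW
  set z : ℤ := s₀ * (v * W) * (w₂ * g) + σ * (w₁ * (M * W)) with hz
  have hzW : W ∣ z := ⟨s₀ * v * (w₂ * g) + σ * (w₁ * M), by rw [hz]; ring⟩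
  have hzM : M ∣ z - s₀ := by
    refine ⟨-s₀ * u - s₀ * (v * W) * (w₁ * W) + σ * (w₁ * W), ?_⟩
    rw [hz]
    linear_combination s₀ * huv + s₀ * (v * W) * hww
  have hzg : (g : ℤ) ∣ z - σ :=
    ⟨s₀ * (v * W) * w₂ - σ * w₂, by rw [hz]; linear_combination σ * hww⟩
  have hgR : (0 : ℝ) < g := by exact_mod_cast hg.pos
  have hqR : (0 : ℝ) < q := by exact_mod_cast hq.pos
  have hwR : (0 : ℝ) < w := by exact_mod_cast hw.pos
  have hg₀R : (1 : ℝ) ≤ g₀ := by exact_mod_cast hg₀pos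
  have hkR : (k : ℝ) = g₀ * (q * w) := by rw [hk]; push_cast; ring
  have hkpos : (0 : ℝ) < k := by rw [hkR]; positivity
  have hlen : (k : ℝ) / (y - 1) + 4 * (M * W * g : ℝ) < k / (x' - 1) := by
    have h1 : (k : ℝ) / (x' - 1) - k / (y - 1) = k * lam := by rw [hlam]; ring
    have h2 : 2000 * (M * W : ℝ) < w * lam := by
      have h3 : (V₀ : ℝ) < w := by exact_mod_cast (by omega : V₀ < w)
      have h4 : 2000 * (M * W : ℝ) / lam < w := by linarith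
      rwa [div_lt_iff₀ hlam0] at h4
    have h5 : (g : ℝ) ≤ 500 * q := by exact_mod_cast hgq
    have h6 : (q : ℝ) * (2000 * (M * W : ℝ)) < q * (w * lam) := mul_lt_mul_of_pos_left h2 hqR
    have h7 : 4 * (M * W * g : ℝ) ≤ q * (2000 * (M * W : ℝ)) := by
      have := mul_le_mul_of_nonneg_left h5 hMWR.le
      linarith
    have h8 : (q : ℝ) * (w * lam) ≤ k * lam := by
      rw [hkR]
      have : (1 : ℝ) * (q * w * lam) ≤ g₀ * (q * w * lam) :=
        mul_le_mul_of_nonneg_right hg₀R (by positivity)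
      linarith
    linarith
  obtain ⟨j₀, hj₀⟩ := in_interval (z : ℝ) (M * W * g : ℝ) (by positivity) _ _ hlen
  -- the four candidates
  set sj : ℕ → ℤ := fun j => z + M * W * g * (j₀ + j) with hsj
  have hdiff : ∀ i j : ℕ, sj j - sj i = M * W * g * ((j : ℤ) - i) := by
    intro i j
    rw [hsj]
    ring
  have hsg : ∀ j, (g : ℤ) ∣ sj j - σ := by
    intro j
    have h1 : sj j - σ = (z - σ) + g * (M * W * (j₀ + j)) := by rw [hsj]; ring
    rw [h1]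
    exact hzg.add (Dvd.intro _ rfl)
  have hpr : ∀ (p : ℕ), p.Prime → 4 < p → ¬ (p : ℤ) ∣ M * W → ¬ (p : ℤ) ∣ g →
      ∀ i < 4, ∀ j < 4, i < j → (p : ℤ) ∣ sj i → (p : ℤ) ∣ sj j → False := by
    intro p hp hp4 hpM hpg i hi j hj hij h1 h2
    have hpp : Prime (p : ℤ) := Nat.prime_iff_prime_int.1 hp
    have h3 := h2.sub h1
    rw [hdiff] at h3
    rcases hpp.dvd_or_dvd h3 with h4 | h4
    · rcases hpp.dvd_or_dvd h4 with h5 | h5
      · exact hpM h5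
      · exact hpg h5
    · have := Int.le_of_dvd (by omega) h4
      omega
  obtain ⟨j, hj4, hjq, hjw, hjg⟩ := four (fun j => (q : ℤ) ∣ sj j) (fun j => (w : ℤ) ∣ sj j)
    (fun j => (g : ℤ) ^ 2 ∣ (sj j + k) ^ m - sj j ^ m)
    (hpr q hq (by omega) hqMW hqg') (hpr w hw (by omega) hwMW hwg) (by
      intro i hi j hj hij h1 h2
      have h3 : sj j = sj i + M * W * g * ((j : ℤ) - i) := by rw [← hdiff]; ring
      rw [h3] at h2
      have h4 := sq_step g m hg (fun h => by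
        have := Nat.le_of_dvd (by omega) h
        omega) (sj i) k _ (hσ _ (hsg i)).2 hgk ⟨M * W * ((j : ℤ) - i), by ring⟩ h1 h2
      have h5 : (g : ℤ) ∣ M * W * ((j : ℤ) - i) := by
        rw [pow_two, show M * W * (g : ℤ) * ((j : ℤ) - i) = g * (M * W * ((j : ℤ) - i)) by ring]
          at h4
        exact (mul_dvd_mul_iff_left hgp.ne_zero).1 h4
      rcases hgp.dvd_or_dvd h5 with h6 | h6
      · exact hgMW h6
      · have := Int.le_of_dvd (by omega) h6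
        omega)
  obtain ⟨hsl, hsu⟩ := hj₀ j hj4
  set s : ℤ := sj j with hs
  have hsR : (s : ℝ) = z + (M * W * g : ℝ) * (j₀ + j) := by
    rw [hs, hsj]
    push_cast
    ring
  rw [← hsR] at hsl hsu
  have hspos : (0 : ℝ) < s := lt_trans (by positivity) hsl
  have hsM : M ∣ s - s₀ := by
    have h1 : s - s₀ = (z - s₀) + M * (W * g * (j₀ + j)) := by rw [hs, hsj]; ring
    rw [h1]
    exact hzM.add (Dvd.intro _ rfl)
  have hsW : W ∣ s := by
    have h1 : s = z + W * (M * g * (j₀ + j)) := by rw [hs, hsj]; ring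
    rw [h1]
    exact hzW.add (Dvd.intro _ rfl)
  have hkM : M ∣ k - (t₀ - s₀) := by
    have h1 : k - (t₀ - s₀) = (k - k₁) + (k₁ - (t₀ - s₀)) := by ring
    rw [h1]
    exact ((Dvd.intro _ rfl).trans hkk₁).add hk₁M
  have hkW : W ∣ k - 1 := by
    have h1 : k - 1 = (k - k₁) + (k₁ - 1) := by ring
    rw [h1]
    exact ((Dvd.intro_left _ rfl).trans hkk₁).add hk₁W
  -- coprimality
  have hscopM : IsCoprime s M := by
    obtain ⟨e, he⟩ := hsM
    have h1 : s = s₀ + M * e := by linear_combination he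
    rw [h1]
    exact IsCoprime.add_mul_left_left hcop _
  have hg₀M : g₀ ∣ M := by
    have h1 : g₀ ∣ k₁ := ⟨k₂, by rw [hk₂]; ring⟩
    have h2 : IsCoprime k₁ W := by
      obtain ⟨e, he⟩ := hk₁W
      exact ⟨1, -e, by linear_combination he⟩
    have h3 : IsCoprime g₀ W := IsCoprime.of_isCoprime_of_dvd_left h2 h1
    exact h3.dvd_of_dvd_mul_right ⟨N₂, by rw [hN₂]; ring⟩
  have hscopk : IsCoprime s k := by
    rw [hk]
    exact (IsCoprime.of_isCoprime_of_dvd_right hscopM hg₀M).mul_right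
      ((coprime_of_prime hq hjq).mul_right (coprime_of_prime hw hjw))
  refine ⟨s, s + k, hsM, ?_, by exact_mod_cast hspos, ?_, ?_, ?_, hsW, ?_, hjq, ?_, ?_,
    (hσ _ (hsg j)).2, (hσ _ (hsg j)).1, hjg, ?_⟩
  · have h1 : s + k - t₀ = (s - s₀) + (k - (t₀ - s₀)) := by ring
    rw [h1]
    exact hsM.add hkM
  · have h1 : s + k = k + s * 1 := by ring
    rw [h1]
    exact IsCoprime.add_mul_left_right hscopk 1
  · rw [lt_div_iff₀ hx'0] at hsu
    push_cast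
    have : x * s ≤ x' * s := mul_le_mul_of_nonneg_right hxx hspos.le
    linarith
  · rw [div_lt_iff₀ hy0] at hsl
    push_cast
    linarith
  · have h1 : s + k - 1 = s + (k - 1) := by ring
    rw [h1]
    exact hsW.add hkW
  · rw [add_sub_cancel_left, hk]
    exact ⟨g₀ * w, by ring⟩
  · rw [add_sub_cancel_left, hk]
    intro h
    rw [pow_two, show g₀ * ((q : ℤ) * w) = q * (g₀ * w) by ring] at h
    rcases hqp.dvd_or_dvd ((mul_dvd_mul_iff_left hqp.ne_zero).1 h) with h1 | h1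
    · exact hqg₀ h1
    · exact hqw h1
  · have h1 : (k : ℝ) ≤ g₀ * (q * V₁) := by
      rw [hkR]
      have : (w : ℝ) ≤ V₁ := by exact_mod_cast hwV₁
      gcongr
    calc (s : ℝ) ≤ k / (x' - 1) := hsu.le
      _ ≤ g₀ * (q * V₁) / (x' - 1) := by gcongr
      _ = _ := by ring

end Pool.Agent.D0H85.CG
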