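import Pool.Agent.D0H85.CG.Fld
import Pool.Agent.D0H85.CG.SelC
import Pool.Agent.N53.CL.Both

/-!
The family of fields, one for each pair of large primes `q`, `g` of the same size, `g ≡ 1` mod `m`.
-/

set_option autoImplicit false

namespace Pool.Agent.D0H85.CG

open NumberField Pool.Agent.W289.CG Pool.Agent.N53.CL nonZeroDivisors

theorem famB_data {n k : ℕ} (hn : 2 ≤ n) (hk : 1 ≤ k) (D : Dat n k) (r₁ : ℕ) (v₁ v₂ : ℝ)
    (h₁ : 0 < v₁) (h₁₂ : v₁ < v₂) (hcount : ∀ v, v₁ < v → v < v₂ →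
      {X : ℝ | ∏ i, (X - (D.a i : ℝ)) = - v}.ncard = r₁) (m : ℕ) (hm : 2 ≤ m)
    (S T : Finset ℕ)
    (hS : ∀ p ∈ S, p.Prime ∧ ¬ (p : ℤ) ∣ D.c * |D.bad|)
    (hT : ∀ q ∈ T, q.Prime ∧ ¬ (q : ℤ) ∣ D.c * |D.bad|) (hST : Disjoint S T)
    (hTm : ∀ q ∈ T, ¬ q ∣ m) :
    ∃ (Q₀ : ℕ) (C : ℝ), ∀ q g : ℕ, q.Prime → g.Prime → Q₀ ≤ q → Q₀ ≤ g → q ≠ g →
      g ≡ 1 [MOD m] → g ≤ 500 * q →
    ∃ (K : Type) (_ : Field K) (_ : NumberField K), Module.finrank ℚ K = n ∧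
      InfinitePlace.nrRealPlaces K = r₁ ∧ ((q : ℤ) ∣ discr K ∧ (g : ℤ) ∣ discr K ∧
        |(discr K : ℝ)| ≤ C * (q : ℝ) ^ (2 * m * (n - 1))) ∧
      (∀ p ∈ S, (∃ P : Fin n → Ideal (𝓞 K), Function.Injective P ∧ (∀ i, (P i).IsPrime) ∧
        ∏ i, P i = Ideal.span {(p : 𝓞 K)}) ∧ ∃ _ : Fact p.Prime, Nonempty (K →+* ℚ_[p])) ∧
      (∀ q ∈ T, ∃ P : Ideal (𝓞 K), P.IsPrime ∧ P ^ n = Ideal.span {(q : 𝓞 K)}) ∧
      ∀ R, R + Units.rank K ≤ n + k - 1 →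
        ∃ f : Multiplicative (Fin R → ZMod m) →* ClassGroup (𝓞 K), Function.Injective f := by
  have hcR : (0 : ℝ) < D.c := by exact_mod_cast D.hc
  have h₂ : 0 < v₂ := h₁.trans h₁₂
  have hm0 : m ≠ 0 := by omega
  have hmR : (0 : ℝ) < (m : ℝ)⁻¹ := by positivity
  set x : ℝ := (1 + D.c / v₂) ^ ((m : ℝ)⁻¹) with hx
  set y : ℝ := (1 + D.c / v₁) ^ ((m : ℝ)⁻¹) with hy
  have hx0 : 0 ≤ 1 + D.c / v₂ := by positivity
  have hy0 : 0 ≤ 1 + D.c / v₁ := by positivity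
  have hxm : x ^ m = 1 + D.c / v₂ := Real.rpow_inv_natCast_pow hx0 hm0
  have hym : y ^ m = 1 + D.c / v₁ := Real.rpow_inv_natCast_pow hy0 hm0
  have hx1 : 1 ≤ x := Real.one_le_rpow (by
    have : 0 < D.c / v₂ := div_pos hcR h₂
    linarith) hmR.le
  have hxy : x < y := Real.rpow_lt_rpow hx0 (by
    have : D.c / v₂ < D.c / v₁ := div_lt_div_of_pos_left hcR h₁ h₁₂
    linarith) hmR
  have hy1 : 0 < y := by linarith
  obtain ⟨q₀, q₁, M, s₀, t₀, hM, hcop, hMW, hgood⟩ :=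
    exists_good' Pool.Agent.W349.CG.WeilT.main Pool.Agent.W505.CG.root D m 0 (by omega) hk hm S T
      hS hT hST
  set W : ℤ := ∏ p ∈ S, (p : ℤ) with hW
  have hWpos : (0 : ℤ) < W := Finset.prod_pos fun p hp => by exact_mod_cast (hS p hp).1.pos
  obtain ⟨Q₁, C₂, hsel⟩ := selB m hm M W s₀ t₀ x y hM hWpos hcop hMW hx1 hxy
  obtain ⟨B, hB1, hB⟩ : ∃ B : ℝ, 1 ≤ B ∧ ∀ z : ℂ, ‖∏ i, (z - (D.a i : ℂ))‖ ≤ v₂ →
      ∀ i, ‖z - (D.a i : ℂ)‖ ≤ B := by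
    obtain ⟨n', rfl⟩ : ∃ n', n = n' + 1 := ⟨n - 1, by omega⟩
    exact root_bound D.a v₂
  set C₁ : ℝ := ((n.factorial : ℝ) * (y ^ m * B ^ n) ^ (n - 1)) ^ 2 with hC₁
  have hC₁0 : 0 ≤ C₁ := sq_nonneg _
  refine ⟨Q₁ + m + 1 + D.c.natAbs,
    C₁ * C₂ ^ (2 * m * (n - 1)),
    fun q g hq hg hqQ hgQ hqg hgm hgq => ?_⟩
  obtain ⟨s, t, hs, ht, hs0, hst, hxs, hys, hWs, hWt, hqs, hq1, hq2, hgs, hg1, hg2, hsA⟩ :=
    hsel q g hq hg (by omega) (by omega) hqg hgm hgq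
  obtain ⟨hG, hGT⟩ := hgood s t hs ht
  have hsR : (0 : ℝ) < s := by exact_mod_cast hs0
  have htR : (s : ℝ) < t := by nlinarith
  have hslt : s < t := by exact_mod_cast htR
  obtain ⟨K, hK1, hK2, hfr, hreal, hspl, hram, hcl, hdiv, hdisc⟩ :=
    fld hn hk D m 0 hm S T hS hT hTm q₀ q₁ s t hG hGT hs0 hslt hst hWs hWt
  have hsm : (0 : ℝ) < (s : ℝ) ^ m := by positivity
  have h3 : (1 + D.c / v₂) * (s : ℝ) ^ m < (t : ℝ) ^ m := by
    rw [← hxm, ← mul_pow]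
    exact pow_lt_pow_left₀ hxs (by positivity) hm0
  have h4 : (t : ℝ) ^ m < (1 + D.c / v₁) * (s : ℝ) ^ m := by
    rw [← hym, ← mul_pow]
    exact pow_lt_pow_left₀ hys (by linarith) hm0
  have h5 : 0 < (t : ℝ) ^ m - (s : ℝ) ^ m := by
    have h6 : 0 < D.c / v₂ * (s : ℝ) ^ m := by positivity
    nlinarith
  have hv1 : v₁ < (s : ℝ) ^ m * D.c / ((t : ℝ) ^ m - (s : ℝ) ^ m) := by
    rw [lt_div_iff₀ h5]
    have h6 : (t : ℝ) ^ m - (s : ℝ) ^ m < D.c / v₁ * (s : ℝ) ^ m := by nlinarith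
    have h7 : v₁ * ((t : ℝ) ^ m - (s : ℝ) ^ m) < v₁ * (D.c / v₁ * (s : ℝ) ^ m) :=
      mul_lt_mul_of_pos_left h6 h₁
    have h8 : v₁ * (D.c / v₁ * (s : ℝ) ^ m) = (s : ℝ) ^ m * D.c := by
      field_simp
    linarith
  have hv2 : (s : ℝ) ^ m * D.c / ((t : ℝ) ^ m - (s : ℝ) ^ m) < v₂ := by
    rw [div_lt_iff₀ h5]
    have h6 : D.c / v₂ * (s : ℝ) ^ m < (t : ℝ) ^ m - (s : ℝ) ^ m := by nlinarith
    have h7 : v₂ * (D.c / v₂ * (s : ℝ) ^ m) < v₂ * ((t : ℝ) ^ m - (s : ℝ) ^ m) :=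
      mul_lt_mul_of_pos_left h6 h₂
    have h8 : v₂ * (D.c / v₂ * (s : ℝ) ^ m) = (s : ℝ) ^ m * D.c := by
      field_simp
    linarith
  refine ⟨K, hK1, hK2, hfr, ?_, ⟨?_, ?_, ?_⟩, hspl, hram, hcl⟩
  · rw [hreal]
    exact hcount _ hv1 hv2
  · have hex := exact_pow (m := m) hq (fun h => by
      have := Nat.le_of_dvd (by omega) h
      omega) hqs hq1 hq2
    exact hdiv q hq (not_dvd_of_lt D.hc.ne' (by omega)) hqs hex.1 hex.2
  · exact hdiv g hg (not_dvd_of_lt D.hc.ne' (by omega)) hgs hg1 hg2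
  · have h6 := hdisc v₂ B hB1 hv2.le hB
    rw [Int.cast_abs] at h6
    have h7 : (t : ℝ) ^ m ≤ y ^ m * (s : ℝ) ^ m := by
      rw [← mul_pow]
      exact pow_le_pow_left₀ (by linarith) hys.le m
    have h8 : ((n.factorial : ℝ) * ((t : ℝ) ^ m * B ^ n) ^ (n - 1)) ^ 2 ≤
        C₁ * (s : ℝ) ^ (2 * m * (n - 1)) := by
      have h9 : C₁ * (s : ℝ) ^ (2 * m * (n - 1)) =
          ((n.factorial : ℝ) * ((y ^ m * (s : ℝ) ^ m) * B ^ n) ^ (n - 1)) ^ 2 := by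
        rw [hC₁, show 2 * m * (n - 1) = m * (n - 1) * 2 by ring, pow_mul (s : ℝ) _ 2,
          pow_mul (s : ℝ) m, ← mul_pow, mul_assoc, ← mul_pow]
        congr 3
        ring
      rw [h9]
      have : (0 : ℝ) < t := by linarith
      gcongr
    calc |(discr K : ℝ)| ≤ C₁ * (s : ℝ) ^ (2 * m * (n - 1)) := h6.trans h8
      _ ≤ C₁ * (C₂ * q) ^ (2 * m * (n - 1)) := by gcongr
      _ = _ := by rw [mul_pow]; ring

theorem famB_both {n k : ℕ} (hn : 2 ≤ n) (hk : 1 ≤ k) (D : Dat n k) (r₁ : ℕ) (v₁ v₂ : ℝ)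
    (h₁ : 0 < v₁) (h₁₂ : v₁ < v₂) (hcount : ∀ v, v₁ < v → v < v₂ →
      {X : ℝ | ∏ i, (X - (D.a i : ℝ)) = - v}.ncard = r₁) (m R : ℕ) (hm : 2 ≤ m)
    (S T : Finset ℕ)
    (hS : ∀ p ∈ S, p.Prime ∧ ¬ (p : ℤ) ∣ D.c * |D.bad|)
    (hT : ∀ q ∈ T, q.Prime ∧ ¬ (q : ℤ) ∣ D.c * |D.bad|) (hST : Disjoint S T)
    (hTm : ∀ q ∈ T, ¬ q ∣ m) :
    ∃ (Q₀ : ℕ) (C : ℝ), ∀ q g : ℕ, q.Prime → g.Prime → Q₀ ≤ q → Q₀ ≤ g → q ≠ g →
      g ≡ 1 [MOD m] → g ≤ 500 * q →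
    ∃ (K : Type) (_ : Field K) (_ : NumberField K), Module.finrank ℚ K = n ∧
      InfinitePlace.nrRealPlaces K = r₁ ∧ ((q : ℤ) ∣ discr K ∧ (g : ℤ) ∣ discr K ∧
        |(discr K : ℝ)| ≤ C * (q : ℝ) ^ (2 * m * (n - 1))) ∧
      (∀ p ∈ S, ∃ P : Fin n → Ideal (𝓞 K), Function.Injective P ∧ (∀ i, (P i).IsPrime) ∧
        ∏ i, P i = Ideal.span {(p : 𝓞 K)}) ∧
      (∀ q ∈ T, ∃ P : Ideal (𝓞 K), P.IsPrime ∧ P ^ n = Ideal.span {(q : 𝓞 K)}) ∧
      (∀ R, R + Units.rank K ≤ n + k - 1 →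
        ∃ f : Multiplicative (Fin R → ZMod m) →* ClassGroup (𝓞 K), Function.Injective f) ∧
      ∃ f : Multiplicative (Fin R → ZMod n) →* ClassGroup (𝓞 K), Function.Injective f := by
  classical
  set Z : ℤ := D.c * |D.bad| with hZ
  have hZ0 : 0 < Z := mul_pos D.hc (abs_pos.2 (bad_ne D))
  have hd : ∀ q : ℕ, Z.natAbs < q → ¬ (q : ℤ) ∣ Z := fun q hq => not_dvd_of_lt hZ0.ne' hq
  set B : ℕ := Z.natAbs + m + n + (S ∪ T).sup id with hB
  have hBS : ∀ x ∈ S ∪ T, x ≤ B := by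
    intro x hx
    have : x ≤ (S ∪ T).sup id := Finset.le_sup (f := id) hx
    omega
  obtain ⟨p, q, hp, hq, hqp, hkey⟩ := exists_primes n (R + n) B (by omega)
  have : NeZero (4 * n) := ⟨by omega⟩
  obtain ⟨p₀, hp₀B, hp₀, hp₀n⟩ := Nat.forall_exists_prime_gt_and_eq_mod (q := 4 * n) (a := -1)
    (isUnit_one.neg) (B + ∏ i, q i)
  have hqle : ∀ i, q i ≤ ∏ i, q i := fun i => Nat.le_of_dvd
    (Finset.prod_pos fun j _ => (hq j).1.pos) (Finset.dvd_prod_of_mem _ (Finset.mem_univ i))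
  have hp₀d : 4 * n ∣ p₀ + 1 := by
    have h1 : ((p₀ + 1 : ℕ) : ZMod (4 * n)) = 0 := by
      push_cast
      rw [hp₀n]
      ring
    exact (ZMod.natCast_eq_zero_iff _ _).1 h1
  set S' : Finset ℕ := S ∪ insert p₀ (Finset.univ.image p) with hS'def
  set T' : Finset ℕ := T ∪ Finset.univ.image q with hT'def
  have hS' : ∀ p ∈ S', p.Prime ∧ ¬ (p : ℤ) ∣ Z := by
    intro x hx
    simp only [hS'def, Finset.mem_union, Finset.mem_insert, Finset.mem_image, Finset.mem_univ,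
      true_and] at hx
    rcases hx with h | rfl | ⟨i, rfl⟩
    · exact hS x h
    · exact ⟨hp₀, hd _ (by omega)⟩
    · exact ⟨(hp i).1, hd _ (by have := (hp i).2; omega)⟩
  have hT' : ∀ p ∈ T', p.Prime ∧ ¬ (p : ℤ) ∣ Z := by
    intro x hx
    simp only [hT'def, Finset.mem_union, Finset.mem_image, Finset.mem_univ, true_and] at hx
    rcases hx with h | ⟨i, rfl⟩
    · exact hT x h
    · exact ⟨(hq i).1, hd _ (by have := (hq i).2; omega)⟩
  have hTm' : ∀ q ∈ T', ¬ q ∣ m := by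
    intro x hx
    simp only [hT'def, Finset.mem_union, Finset.mem_image, Finset.mem_univ, true_and] at hx
    rcases hx with h | ⟨i, rfl⟩
    · exact hTm x h
    · intro h
      have := Nat.le_of_dvd (by omega) h
      have := (hq i).2
      omega
  have hST' : Disjoint S' T' := by
    rw [Finset.disjoint_left]
    intro x hx hx'
    simp only [hS'def, Finset.mem_union, Finset.mem_insert, Finset.mem_image, Finset.mem_univ,
      true_and] at hx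
    simp only [hT'def, Finset.mem_union, Finset.mem_image, Finset.mem_univ, true_and] at hx'
    rcases hx' with h' | ⟨j, hj⟩
    · have h3 := hBS x (Finset.mem_union_right _ h')
      rcases hx with h | h | ⟨i, h⟩
      · exact Finset.disjoint_left.1 hST h h'
      · omega
      · have := (hp i).2
        omega
    · rcases hx with h | h | ⟨i, h⟩
      · have h3 := hBS x (Finset.mem_union_left _ h)
        have := (hq j).2
        omega
      · have := hqle j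
        omega
      · exact hqp j i (by rw [hj, h])
  obtain ⟨Q₀, C, hfam⟩ :=
    famB_data hn hk D r₁ v₁ v₂ h₁ h₁₂ hcount m hm S' T' hS' hT' hST' hTm'
  refine ⟨Q₀, C, fun r g hr hg hrQ hgQ hrg hgm hgr => ?_⟩
  obtain ⟨K, hK1, hK2, hfr, hreal, hdisc, hspl, hram, hcl⟩ := hfam r g hr hg hrQ hgQ hrg hgm hgr
  refine ⟨K, hK1, hK2, hfr, hreal, hdisc,
    fun p hp => (hspl p (Finset.mem_union_left _ hp)).1,
    fun q hq => hram q (Finset.mem_union_left _ hq), hcl, ?_⟩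
  have hq0 : ∀ i, ((q i : ℕ) : K) ≠ 0 := fun i => by exact_mod_cast (hq i).1.ne_zero
  have h8 := InfinitePlace.card_add_two_mul_card_eq_rank K
  have h7 := rank_eq K
  refine Pool.Agent.W930.CG.cls Pool.Agent.W240.CG.grp Pool.Agent.W125.CG.uni K (R + n) n R hn
    (by omega) (fun i => Units.mk0 _ (hq0 i)) ?_ ?_ ?_
  · intro i
    obtain ⟨P, -, hP⟩ := hram (q i) (Finset.mem_union_right _
      (Finset.mem_image_of_mem _ (Finset.mem_univ i)))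
    exact exists_frac n (q i) (by omega) (hq i).1.ne_zero P hP _ rfl
  · intro ℓ hℓ hℓn e y hy i
    obtain ⟨-, hfact, ⟨φ⟩⟩ := hspl (p i) (Finset.mem_union_right _ (Finset.mem_insert_of_mem
      (Finset.mem_image_of_mem _ (Finset.mem_univ i))))
    have hℓ0 : (ℓ : ℤ) ≠ 0 := by exact_mod_cast hℓ.ne_zero
    set e' : Fin (R + n) → ℕ := fun i => (e i % ℓ).toNat with he'
    have hmod : ∀ i, ((e' i : ℕ) : ℤ) = e i % ℓ := fun i => by
      rw [he']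
      exact Int.toNat_of_nonneg (Int.emod_nonneg _ hℓ0)
    have hee : ∀ i, (ℓ : ℤ) ∣ e i - (e' i : ℤ) := fun i => by
      rw [hmod]
      exact Int.dvd_self_sub_emod
    have hqpi : ∀ j, ((q j : ℕ) : ZMod (p i)) ≠ 0 := by
      intro j h
      rw [ZMod.natCast_eq_zero_iff] at h
      exact hqp j i ((Nat.prime_dvd_prime_iff_eq (hp i).1 (hq j).1).1 h).symm
    obtain ⟨y', hy'⟩ := Pool.Agent.W349.CG.red K (p i) ℓ (R + n) 0 (fun j => -(q j : ℤ)) φ 0 0 hℓ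
      (by simp) (by simp)
      (by
        intro j h
        apply hqpi j
        push_cast at h
        exact neg_eq_zero.1 h.symm) e e' (y : K) hee
      (by
        have hy2 : ∏ j, ((q j : ℕ) : K) ^ e j = (y : K) ^ ℓ ∨
            ∏ j, ((q j : ℕ) : K) ^ e j = - (y : K) ^ ℓ := by
          rcases hy with h | h
          · left
            have := congrArg (Units.val) h
            simpa using this
          · right
            have := congrArg (Units.val) h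
            simpa using this
        simpa using hy2)
    have h9 := hkey i ℓ hℓ hℓn e' y' (by simpa using hy')
    have h10 : (ℓ : ℤ) ∣ (e' i : ℤ) := by exact_mod_cast h9
    have := (hee i).add h10
    simpa using this
  · intro ℓ hℓ hℓn
    obtain ⟨-, hfact, ⟨φ⟩⟩ := hspl p₀ (Finset.mem_union_right _ (Finset.mem_insert_self _ _))
    have hle : ℓ ≤ n := Nat.le_of_dvd (by omega) hℓn
    have hp3 : 3 < p₀ := by
      have := Nat.le_of_dvd (by omega) hp₀d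
      omega
    have hq1 : p₀ - 1 + 2 = p₀ + 1 := by omega
    refine ⟨fun hℓ2 => ?_, fun hℓ2 => ?_⟩
    · rintro ⟨ζ, hζ⟩
      have h1 := Pool.Agent.W349.CG.mu p₀ ℓ (fun h => by
        have := Nat.le_of_dvd hℓ.pos h
        omega) ⟨φ ζ, hζ.map_of_injective φ.injective⟩
      have h2 : ℓ ∣ p₀ + 1 := (hℓn.trans (Dvd.intro_left _ rfl)).trans hp₀d
      rw [← hq1] at h2
      have h3 : ℓ ∣ 2 := (Nat.dvd_add_right h1).1 h2
      exact hℓ2 ((Nat.prime_dvd_prime_iff_eq hℓ Nat.prime_two).1 h3)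
    · rintro ⟨ζ, hζ⟩
      have h1 := Pool.Agent.W349.CG.mu p₀ 4 (fun h => by
        have h4 := Nat.le_of_dvd (by norm_num) h
        have h5 : p₀ = 4 := by omega
        rw [h5] at hp₀
        exact absurd hp₀ (by norm_num)) ⟨φ ζ, hζ.map_of_injective φ.injective⟩
      have h2 : 4 ∣ p₀ + 1 := (Dvd.intro _ rfl).trans hp₀d
      rw [← hq1] at h2
      have h3 : 4 ∣ 2 := (Nat.dvd_add_right h1).1 h2
      norm_num at h3

end Pool.Agent.D0H85.CG
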