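import Pool.Agent.N53.CL.Core
import Pool.Agent.N53.CL.Fields
import Pool.Agent.D0H85.CG.Disc

/-!
The field belonging to a given pair `(s, t)`, with its discriminant.
-/

set_option autoImplicit false

namespace Pool.Agent.D0H85.CG

open Polynomial NumberField Pool.Agent.W289.CG Pool.Agent.N53.CL

/-- a prime dividing `t - s` exactly once divides `t ^ m - s ^ m` exactly once -/
theorem exact_pow {q m : ℕ} (hq : q.Prime) (hqm : ¬ q ∣ m) {s t : ℤ} (hs : ¬ (q : ℤ) ∣ s)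
    (h1 : (q : ℤ) ∣ t - s) (h2 : ¬ (q : ℤ) ^ 2 ∣ t - s) :
    (q : ℤ) ∣ t ^ m - s ^ m ∧ ¬ (q : ℤ) ^ 2 ∣ t ^ m - s ^ m := by
  have hp : Prime (q : ℤ) := Nat.prime_iff_prime_int.1 hq
  refine ⟨h1.trans (sub_dvd_pow_sub_pow t s m), fun h => ?_⟩
  have hfac : (∑ i ∈ Finset.range m, t ^ i * s ^ (m - 1 - i)) * (t - s) = t ^ m - s ^ m :=
    (Commute.all t s).geom_sum₂_mul m
  obtain ⟨u, hu⟩ := h1
  have hu' : ¬ (q : ℤ) ∣ u := fun h' => h2 (by rw [hu, pow_two]; exact mul_dvd_mul_left _ h')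
  rw [← hfac, hu, pow_two, mul_left_comm] at h
  have h3 := (mul_dvd_mul_iff_left hp.ne_zero).1 h
  rcases hp.dvd_or_dvd h3 with h4 | h4
  · have h5 : (q : ℤ) ∣ ∑ i ∈ Finset.range m, (t ^ i * s ^ (m - 1 - i) - s ^ (m - 1)) := by
      refine Finset.dvd_sum fun i hi => ?_
      rw [Finset.mem_range] at hi
      have h6 : s ^ (m - 1) = s ^ i * s ^ (m - 1 - i) := by
        rw [← pow_add]; congr 1; omega
      rw [h6, ← sub_mul]
      exact ((Dvd.intro u hu.symm).trans (sub_dvd_pow_sub_pow t s i)).mul_right _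
    rw [Finset.sum_sub_distrib, Finset.sum_const, Finset.card_range, nsmul_eq_mul] at h5
    have h6 := (dvd_sub_right h4).1 h5
    rcases hp.dvd_or_dvd h6 with h7 | h7
    · exact hqm (by exact_mod_cast h7)
    · exact hs (hp.dvd_of_dvd_pow h7)
  · exact hu' h4

/-- **The field belonging to `(s, t)`.** -/
theorem fld {n k : ℕ} (hn : 2 ≤ n) (hk : 1 ≤ k) (D : Dat n k) (m N : ℕ) (hm : 2 ≤ m)
    (S T : Finset ℕ) (hS : ∀ p ∈ S, p.Prime ∧ ¬ (p : ℤ) ∣ D.c * |D.bad|)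
    (hT : ∀ q ∈ T, q.Prime ∧ ¬ (q : ℤ) ∣ D.c * |D.bad|) (hTm : ∀ q ∈ T, ¬ q ∣ m)
    (q₀ q₁ : ℕ) (s t : ℤ) (hG : Good D m N q₀ q₁ s t)
    (hGT : ∀ q ∈ T, (q : ℤ) ∣ s - 1 ∧ (q : ℤ) ^ 2 ∣ t - s - q) (hs0 : 0 < s) (hslt : s < t)
    (hst : IsCoprime s t) (hWs : (∏ p ∈ S, (p : ℤ)) ∣ s) (hWt : (∏ p ∈ S, (p : ℤ)) ∣ t - 1) :
    ∃ (K : Type) (_ : Field K) (_ : NumberField K), Module.finrank ℚ K = n ∧
      InfinitePlace.nrRealPlaces K =
        {X : ℝ | ∏ i, (X - (D.a i : ℝ)) = - ((s : ℝ) ^ m * D.c / ((t : ℝ) ^ m - (s : ℝ) ^ m))}.ncard ∧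
      (∀ p ∈ S, (∃ P : Fin n → Ideal (𝓞 K), Function.Injective P ∧ (∀ i, (P i).IsPrime) ∧
        ∏ i, P i = Ideal.span {(p : 𝓞 K)}) ∧ ∃ _ : Fact p.Prime, Nonempty (K →+* ℚ_[p])) ∧
      (∀ q ∈ T, ∃ P : Ideal (𝓞 K), P.IsPrime ∧ P ^ n = Ideal.span {(q : 𝓞 K)}) ∧
      (∀ R, R + Units.rank K ≤ n + k - 1 →
        ∃ f : Multiplicative (Fin R → ZMod m) →* ClassGroup (𝓞 K), Function.Injective f) ∧
      (∀ q : ℕ, q.Prime → ¬ (q : ℤ) ∣ D.c → ¬ (q : ℤ) ∣ s → (q : ℤ) ∣ t ^ m - s ^ m →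
        ¬ (q : ℤ) ^ 2 ∣ t ^ m - s ^ m → (q : ℤ) ∣ discr K) ∧
      ∀ v B : ℝ, 1 ≤ B → (s : ℝ) ^ m * D.c / ((t : ℝ) ^ m - (s : ℝ) ^ m) ≤ v →
        (∀ z : ℂ, ‖∏ i, (z - (D.a i : ℂ))‖ ≤ v → ∀ i, ‖z - (D.a i : ℂ)‖ ≤ B) →
        ((|discr K| : ℤ) : ℝ) ≤ ((n.factorial : ℝ) * ((t : ℝ) ^ m * B ^ n) ^ (n - 1)) ^ 2 := by
  have hCls := (Pool.Agent.W930.CG.cls Pool.Agent.W240.CG.grp Pool.Agent.W125.CG.uni)
  have hVal := Pool.Agent.W64.CG.val
  have hLoc := Pool.Agent.W405.CG.loc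
  have hEmb := Pool.Agent.W290.CG.emb
  have hMu := Pool.Agent.W349.CG.mu
  have hRed := Pool.Agent.W349.CG.red
  have hIrr := Pool.Agent.W505.CG.irr
  have hDisc := Pool.Agent.W505.CG.disc
  have hPl := Pool.Agent.W240.CG.pl
  have hsR : (0 : ℝ) < s := by exact_mod_cast hs0
  obtain ⟨L, hL0, hLc, hcopL, hqL, hqL2, hqs, hsb, htb⟩ := good_arith hG hm hs0 hslt hst
  have hirr := hIrr n D.a L (s ^ m) q₀ (by omega) hG.hq₀ hqL hqL2 hqs hcopL
  obtain ⟨K, hK1, hK2, θ, hfr, hθ, hgen⟩ := exists_field _ hirr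
  rw [natDegree_F (by omega) D.a L _ hL0.ne'] at hfr
  have hθ' := hθ
  rw [eval_F] at hθ'
  have hF : Fld D m s t L K θ := ⟨hLc, by push_cast at hθ'; exact hθ', hgen⟩
  have htn : t ≠ 0 := (hs0.trans hslt).ne'
  have hpt := ne_pt hF hs0.ne' htn
  have hL0' : (L : ℝ) ≠ 0 := by exact_mod_cast hL0.ne'
  have hc0 : (D.c : ℝ) ≠ 0 := by exact_mod_cast D.hc.ne'
  have hLcR : (t : ℝ) ^ m - (s : ℝ) ^ m = L * D.c := by
    have : ((L * D.c : ℤ) : ℝ) = ((t ^ m - s ^ m : ℤ) : ℝ) := by rw [hLc]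
    push_cast at this
    exact this.symm
  refine ⟨K, hK1, hK2, hfr, ?_, ?_, ?_, ?_, ?_, ?_⟩
  · rw [hPl K _ θ hirr hθ hgen]
    congr 1
    ext X
    simp only [Set.mem_ofPred_eq]
    rw [eval_F, hLcR]
    push_cast
    constructor
    · intro h
      field_simp
      linear_combination h
    · intro h
      rw [h]
      field_simp
      ring
  · intro p hp
    obtain ⟨hpr, hpZ⟩ := hS p hp
    have hpp : Prime (p : ℤ) := Nat.prime_iff_prime_int.1 hpr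
    have hpW : (p : ℤ) ∣ ∏ p ∈ S, (p : ℤ) := Finset.dvd_prod_of_mem _ hp
    refine spl hEmb D m s t L K θ p hpr hfr (by omega) (by omega) hL0.ne' hF
      (fun h => hpZ (h.mul_right _)) (fun h => hpZ (Dvd.dvd.mul_left ((dvd_abs _ _).2 h) _))
      (hpW.trans hWs) ?_
    intro h
    have h1 : (p : ℤ) ∣ 1 := by
      have := h.sub (hpW.trans hWt)
      simpa using this
    exact hpp.not_isUnit (isUnit_of_dvd_one h1)
  · intro q hq
    obtain ⟨hqr, hqZ⟩ := hT q hq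
    obtain ⟨g1, g2⟩ := hGT q hq
    have hqp : Prime (q : ℤ) := Nat.prime_iff_prime_int.1 hqr
    obtain ⟨h1, h2⟩ := exact_power hqr (hTm q hq) g1 g2
    refine ram K n D.a L (s ^ m) q θ (by omega) hfr hqr ?_ ?_ ?_ hθ'
    · rw [← hLc] at h1
      exact (hqp.dvd_or_dvd h1).resolve_right (fun h => hqZ (h.mul_right _))
    · intro h
      exact h2 (by rw [← hLc]; exact h.mul_right _)
    · intro h
      have h3 := hqp.dvd_of_dvd_pow h
      have h4 : (q : ℤ) ∣ 1 := by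
        have := h3.sub g1
        simpa using this
      exact hqp.not_isUnit (isUnit_of_dvd_one h4)
  · intro R hR
    obtain ⟨N', hN'⟩ : ∃ N', n + k = N' + 1 := ⟨n + k - 1, by omega⟩
    let σ : Fin (N' + 1) ≃ Fin n ⊕ Fin k := (finCongr hN'.symm).trans finSumFinEquiv.symm
    refine hCls K N' m R hm (by omega) (elt D σ θ hpt) ?_ ?_ ?_
    · intro i
      refine hVal K m _ (by omega) fun v => ?_
      exact hLoc n k D m s t L K θ (by omega) (by omega) hL0.ne' hs0.ne' htn hF hst hsb htb _ _ v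
    · intro ℓ hℓ hℓm
      exact indep_of_tests hEmb hRed hfr (by omega) hL0.ne' hF hpt σ ℓ hℓ (hG.tests ℓ hℓ hℓm)
    · intro ℓ hℓ hℓm
      have hx1 : Tst D m q₁ s t (D.b ⟨0, hk⟩) := by
        have hp : Prime (q₁ : ℤ) := Nat.prime_iff_prime_int.1 hG.hq₁
        refine ⟨hG.hq₁, hG.hc₁, ?_, ?_, ?_⟩
        · rw [D.hab, sub_self, mul_zero, sub_zero]
          exact Dvd.dvd.mul_right (dvd_pow hG.ht₁ (by omega)) _
        · intro h
          have h1 : (q₁ : ℤ) ∣ s ^ m := by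
            have := (dvd_pow hG.ht₁ (show m ≠ 0 by omega)).sub h
            simpa using this
          have h2 := hp.dvd_of_dvd_pow h1
          have h3 : (q₁ : ℤ) ∣ 1 := by
            have := h2.sub hG.hs₁
            simpa using this
          exact hp.not_isUnit (isUnit_of_dvd_one h3)
        · intro h
          exact hG.hbad (h.trans (dvd_bad D (Sum.inr ⟨0, hk⟩)))
      have hle : ℓ ≤ m := Nat.le_of_dvd (by omega) hℓm
      have hq1 : q₁ - 1 + 2 = q₁ + 1 := by have := hG.hq4; omega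
      refine ⟨fun hℓ2 => ?_, fun hℓ2 => ?_⟩
      · refine no_zeta hEmb hMu hfr (by omega) hL0.ne' hF hG.hq₁ hx1 ?_ ?_
        · intro h
          have := Nat.le_of_dvd hℓ.pos h
          have := hG.hqm'
          omega
        · intro h
          have h1 : ℓ ∣ q₁ + 1 := (hℓm.trans (Dvd.intro_left _ rfl)).trans hG.hqm
          rw [← hq1] at h1
          have h2 : ℓ ∣ 2 := (Nat.dvd_add_right h).1 h1
          exact hℓ2 ((Nat.prime_dvd_prime_iff_eq hℓ Nat.prime_two).1 h2)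
      · refine no_zeta hEmb hMu hfr (by omega) hL0.ne' hF hG.hq₁ hx1 ?_ ?_
        · intro h
          have := Nat.le_of_dvd (by norm_num) h
          have := hG.hq4
          omega
        · intro h
          have h1 : 4 ∣ q₁ + 1 := (Dvd.intro _ rfl).trans hG.hqm
          rw [← hq1] at h1
          have h2 : 4 ∣ 2 := (Nat.dvd_add_right h).1 h1
          norm_num at h2
  · intro q hq hqc hqs' h1 h2
    have hqp : Prime (q : ℤ) := Nat.prime_iff_prime_int.1 hq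
    refine hDisc K n D.a L (s ^ m) q θ hn hfr hq ?_ ?_ ?_ hθ' hgen
    · rw [← hLc] at h1
      exact (hqp.dvd_or_dvd h1).resolve_right hqc
    · intro h
      exact h2 (by rw [← hLc]; exact h.mul_right _)
    · exact fun h => hqs' (hqp.dvd_of_dvd_pow h)
  · intro v B hB hv hroot
    obtain ⟨n', rfl⟩ : ∃ n', n = n' + 1 := ⟨n - 1, by omega⟩
    have hc1 : (1 : ℝ) ≤ D.c := by exact_mod_cast D.hc
    have hLpos : (0 : ℝ) < L := by exact_mod_cast hL0
    have hLt : |(L : ℝ)| ≤ (t : ℝ) ^ m := by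
      rw [abs_of_pos hLpos]
      have h1 : (L : ℝ) * 1 ≤ L * D.c := mul_le_mul_of_nonneg_left hc1 hLpos.le
      have h2 : (0 : ℝ) < (s : ℝ) ^ m := by positivity
      linarith
    have hd := disc_le D.a L (s ^ m) hL0.ne' θ hfr hθ' hgen B hB (by
      intro τ i
      refine hroot (τ θ) ?_ i
      have h1 : (L : ℂ) * ∏ i, (τ θ - (D.a i : ℂ)) + (s : ℂ) ^ m = 0 := by
        have h2 := congrArg τ hθ'
        rw [map_add, map_mul, map_prod, map_zero] at h2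
        push_cast at h2
        simpa using h2
      have h3 : ∏ i, (τ θ - (D.a i : ℂ)) = - ((s : ℂ) ^ m / L) := by
        have hLC : (L : ℂ) ≠ 0 := by exact_mod_cast hL0.ne'
        field_simp
        linear_combination h1
      rw [h3, norm_neg, norm_div, norm_pow, Complex.norm_intCast, Complex.norm_intCast]
      rw [abs_of_pos hsR, abs_of_pos hLpos]
      have h4 : (s : ℝ) ^ m / L = (s : ℝ) ^ m * D.c / ((t : ℝ) ^ m - (s : ℝ) ^ m) := by
        rw [hLcR]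
        field_simp
      rw [h4]
      exact hv)
    rw [Nat.add_sub_cancel]
    refine hd.trans ?_
    gcongr

end Pool.Agent.D0H85.CG
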