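import Pool.Agent.W289.CG.Test

/-!
The choice of `s` and `t` for two given primes `q` and `g` of the same size.
-/

set_option autoImplicit false

namespace Pool.Agent.D0H85.CG

open Pool.Agent.W289.CG

/-- `g ≡ 1` mod `m`: a residue class of `s` for which `g` divides `(s + k) ^ m - s ^ m` -/
theorem exists_root (g m : ℕ) (hg : g.Prime) (hm : 2 ≤ m) (h : g ≡ 1 [MOD m]) (k : ℤ)
    (hk : ¬ (g : ℤ) ∣ k) : ∃ σ : ℤ, ∀ s : ℤ, (g : ℤ) ∣ s - σ →
      (g : ℤ) ∣ (s + k) ^ m - s ^ m ∧ ¬ (g : ℤ) ∣ s := by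
  have : Fact g.Prime := ⟨hg⟩
  have hmg : m ∣ g - 1 := (Nat.modEq_iff_dvd' hg.one_lt.le).1 h.symm
  obtain ⟨ζ, hζ⟩ : ∃ ζ : (ZMod g)ˣ, orderOf ζ = m := by
    obtain ⟨a, ha⟩ := IsCyclic.exists_ofOrder_eq_natCard (α := (ZMod g)ˣ)
    have hcard : Nat.card (ZMod g)ˣ = g - 1 := by
      rw [Nat.card_eq_fintype_card, ZMod.card_units]
    rw [hcard] at ha
    refine ⟨a ^ (orderOf a / m), orderOf_pow_orderOf_div ?_ ?_⟩
    · rw [ha]
      have := hg.two_le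
      omega
    · rw [ha]
      exact hmg
  have hζm : ζ ^ m = 1 := by rw [← hζ]; exact pow_orderOf_eq_one ζ
  have hζ1 : (ζ : ZMod g) - 1 ≠ 0 := by
    intro h0
    have h1 : ζ = 1 := Units.ext (sub_eq_zero.1 h0)
    rw [h1, orderOf_one] at hζ
    omega
  have hk0 : (k : ZMod g) ≠ 0 := by
    intro h0
    exact hk ((ZMod.intCast_zmod_eq_zero_iff_dvd k g).1 h0)
  set r : ZMod g := k / ((ζ : ZMod g) - 1) with hr
  have hr0 : r ≠ 0 := div_ne_zero hk0 hζ1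
  refine ⟨(r.val : ℤ), fun s hs => ?_⟩
  have hsr : (s : ZMod g) = r := by
    have h1 := (ZMod.intCast_zmod_eq_zero_iff_dvd (s - (r.val : ℤ)) g).2 hs
    push_cast at h1
    rw [ZMod.natCast_zmod_val] at h1
    exact sub_eq_zero.1 h1
  have htr : (s : ZMod g) + k = ζ * s := by
    rw [hsr]
    have h2 : (k : ZMod g) = r * ((ζ : ZMod g) - 1) := by
      rw [hr, div_mul_cancel₀ _ hζ1]
    rw [h2]
    ring
  constructor
  · rw [← ZMod.intCast_zmod_eq_zero_iff_dvd]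
    push_cast
    rw [htr, mul_pow, ← Units.val_pow_eq_pow_val, hζm]
    simp
  · intro h0
    apply hr0
    rw [← hsr]
    exact (ZMod.intCast_zmod_eq_zero_iff_dvd s g).2 h0

/-- two different members of a short progression are not both divisible by the square -/
theorem sq_step (g m : ℕ) (hg : g.Prime) (hgm : ¬ g ∣ m) (s k h : ℤ)
    (hs : ¬ (g : ℤ) ∣ s) (hk : ¬ (g : ℤ) ∣ k) (hh : (g : ℤ) ∣ h)
    (h1 : (g : ℤ) ^ 2 ∣ (s + k) ^ m - s ^ m) (h2 : (g : ℤ) ^ 2 ∣ (s + h + k) ^ m - (s + h) ^ m) :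
    (g : ℤ) ^ 2 ∣ h := by
  have hp : Prime (g : ℤ) := Nat.prime_iff_prime_int.1 hg
  have hm0 : m ≠ 0 := by rintro rfl; exact hgm (dvd_zero _)
  obtain ⟨c₁, hc₁⟩ := Polynomial.powAddExpansion s h m
  obtain ⟨c₂, hc₂⟩ := Polynomial.powAddExpansion (s + k) h m
  obtain ⟨h', rfl⟩ := hh
  by_contra hcon
  have hh' : ¬ (g : ℤ) ∣ h' := fun h3 => hcon (by rw [pow_two]; exact mul_dvd_mul_left _ h3)
  have h3 : (g : ℤ) ^ 2 ∣ m * ((s + k) ^ (m - 1) - s ^ (m - 1)) * (g * h') := by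
    have h4 := h2.sub h1
    rw [show s + g * h' + k = s + k + g * h' by ring, hc₁, hc₂] at h4
    obtain ⟨w, hw⟩ := h4
    exact ⟨w - (c₂ - c₁) * h' ^ 2, by linear_combination hw⟩
  have h4 : (g : ℤ) ∣ m * ((s + k) ^ (m - 1) - s ^ (m - 1)) * h' := by
    rw [pow_two] at h3
    have h5 : (m : ℤ) * ((s + k) ^ (m - 1) - s ^ (m - 1)) * (g * h') =
      g * (m * ((s + k) ^ (m - 1) - s ^ (m - 1)) * h') := by ring
    rw [h5] at h3
    exact (mul_dvd_mul_iff_left hp.ne_zero).1 h3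
  have h5 := (hp.dvd_or_dvd h4).resolve_right hh'
  have h6 := (hp.dvd_or_dvd h5).resolve_left (fun h => hgm (by exact_mod_cast h))
  have h7 : (g : ℤ) ∣ (s + k) ^ m - s ^ m := (Dvd.intro_left _ (by ring)).trans h1
  have h8 : (s + k) ^ m - s ^ m = (s + k) * ((s + k) ^ (m - 1) - s ^ (m - 1)) +
      s ^ (m - 1) * k := by
    obtain ⟨m', rfl⟩ : ∃ m', m = m' + 1 := ⟨m - 1, by omega⟩
    rw [Nat.add_sub_cancel, pow_succ, pow_succ]
    ring
  rw [h8] at h7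
  have h9 := (Int.dvd_add_right (h6.mul_left _)).1 h7
  rcases hp.dvd_or_dvd h9 with h10 | h10
  · exact hs (hp.dvd_of_dvd_pow h10)
  · exact hk h10

/-- three conditions, each violated at most once, can be satisfied by one of four values -/
theorem four (P Q R : ℕ → Prop) (hP : ∀ i < 4, ∀ j < 4, i < j → P i → P j → False)
    (hQ : ∀ i < 4, ∀ j < 4, i < j → Q i → Q j → False)
    (hR : ∀ i < 4, ∀ j < 4, i < j → R i → R j → False) :
    ∃ j < 4, ¬ P j ∧ ¬ Q j ∧ ¬ R j := by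
  classical
  by_contra hcon
  push Not at hcon
  have hc : ∀ X : ℕ → Prop, (∀ i < 4, ∀ j < 4, i < j → X i → X j → False) →
      ((Finset.range 4).filter X).card ≤ 1 := by
    intro X hX
    rw [Finset.card_le_one]
    intro i hi j hj
    rw [Finset.mem_filter, Finset.mem_range] at hi hj
    rcases lt_trichotomy i j with h | h | h
    · exact (hX i hi.1 j hj.1 h hi.2 hj.2).elim
    · exact h
    · exact (hX j hj.1 i hi.1 h hj.2 hi.2).elim
  have h1 := hc P hP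
  have h2 := hc Q hQ
  have h3 := hc R hR
  have h4 : Finset.range 4 ⊆ (Finset.range 4).filter P ∪ ((Finset.range 4).filter Q ∪
      (Finset.range 4).filter R) := by
    intro j hj
    rw [Finset.mem_union, Finset.mem_union, Finset.mem_filter, Finset.mem_filter,
      Finset.mem_filter]
    rw [Finset.mem_range] at hj
    by_cases hPj : P j
    · exact Or.inl ⟨Finset.mem_range.2 hj, hPj⟩
    · by_cases hQj : Q j
      · exact Or.inr (Or.inl ⟨Finset.mem_range.2 hj, hQj⟩)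
      · exact Or.inr (Or.inr ⟨Finset.mem_range.2 hj, hcon j hj hPj hQj⟩)
  have h5 := Finset.card_le_card h4
  have h6 := Finset.card_union_le ((Finset.range 4).filter P) ((Finset.range 4).filter Q ∪
      (Finset.range 4).filter R)
  have h7 := Finset.card_union_le ((Finset.range 4).filter Q) ((Finset.range 4).filter R)
  rw [Finset.card_range] at h5
  omega

/-- the prime factor `v` of `t - s` -/
theorem exists_v' (k₂ N₂ : ℤ) (hN : 0 < N₂) (hco : IsCoprime k₂ N₂) (V₀ : ℕ) :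
    ∃ V₁ : ℕ, ∀ q : ℕ, q.Prime → ¬ (q : ℤ) ∣ N₂ → ∃ v : ℕ, v.Prime ∧ V₀ < v ∧ v ≤ V₁ ∧
      N₂ ∣ (q : ℤ) * v - k₂ := by
  obtain ⟨n₂, rfl⟩ := Int.eq_ofNat_of_zero_le hN.le
  have hn₂ : 0 < n₂ := by exact_mod_cast hN
  have : NeZero n₂ := ⟨hn₂.ne'⟩
  have hp : ∀ a : (ZMod n₂)ˣ, ∃ p : ℕ, V₀ < p ∧ p.Prime ∧ (p : ZMod n₂) = a := by
    intro a
    obtain ⟨p, h1, h2, h3⟩ := Nat.forall_exists_prime_gt_and_eq_mod (q := n₂) (a := (a : ZMod n₂))
      a.isUnit V₀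
    exact ⟨p, h1, h2, h3⟩
  choose P hP0 hP1 hP2 using hp
  refine ⟨Finset.univ.sup P, fun q hq hqN => ?_⟩
  have hu1 : IsUnit ((k₂ : ℤ) : ZMod n₂) := (ZMod.coe_int_isUnit_iff_isCoprime _ _).2 hco.symm
  have hu2 : IsUnit (((q : ℤ)) : ZMod n₂) :=
    (ZMod.coe_int_isUnit_iff_isCoprime _ _).2 (coprime_of_prime hq hqN)
  obtain ⟨a, ha⟩ := hu1
  obtain ⟨b, hb⟩ := hu2
  refine ⟨P (a * b⁻¹), hP1 _, hP0 _, Finset.le_sup (Finset.mem_univ _), ?_⟩
  rw [← ZMod.intCast_zmod_eq_zero_iff_dvd]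
  push_cast
  rw [hP2, ← ha]
  have hb' : ((q : ℕ) : ZMod n₂) = b := by rw [hb]; push_cast; rfl
  rw [hb', Units.val_mul, mul_left_comm, ← Units.val_mul, mul_inv_cancel]
  simp

end Pool.Agent.D0H85.CG
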