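import Pool.Agent.N855.SG.E1
import Pool.Agent.N855.SG.E2
import Pool.Agent.N855.SG.E3
import Pool.Agent.N855.SG.E4
import Pool.Agent.N855.SG.E5

/-!
The data for all signatures of the degrees from 4 to 30 (from the starting result
`SignaturesToThirty`), as data.
-/

set_option autoImplicit false

namespace Pool.Agent.D0H85.CG

open Pool.Agent.W289.CG Pool.Agent.N855.SG

/-- there are data of degree `n` with `k ≥ κ` points for which `A = - v` has `r₁` real solutions -/
def HasDat (n κ r₁ : ℕ) : Prop :=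
  ∃ (k : ℕ) (D : Dat n k) (v₁ v₂ : ℝ), κ ≤ k ∧ 1 ≤ k ∧ 0 < v₁ ∧ v₁ < v₂ ∧
    ∀ v, v₁ < v → v < v₂ → {X : ℝ | ∏ i, (X - (D.a i : ℝ)) = - v}.ncard = r₁

theorem has_ok {n k : ℕ} {a : Fin n → ℤ} {b : Fin k → ℤ} {c : ℤ} (h : Chk a b c) {s : ℕ}
    {v₁ v₂ : ℤ} {r₁ : ℕ} (ho : Ok a s v₁ v₂ r₁) (κ : ℕ) (hκ : κ ≤ k) : HasDat n κ r₁ := by
  obtain ⟨hk, hn, ha, hb, hc, hab, hder, hlt⟩ := h
  let D : Dat n k :=
    { a := a
      b := b
      c := c
      ha := ha
      hb := hb
      hc := hc
      hab := fun j => by rw [eval_pA]; exact hab j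
      hder := fun j => by rw [eval_derA]; exact hder j
      hlt := hlt }
  exact ⟨k, D, v₁, v₂, hκ, hk, by exact_mod_cast ho.2.2.1, by exact_mod_cast ho.2.2.2.1,
    fun v h1 h2 => count ho v h1 h2⟩

theorem has4 (r₁ r₂ : ℕ) (h : r₁ + 2 * r₂ = 4) :
    HasDat 4 (excess 4 r₁) r₁ := by
  have h2 : r₂ ≤ 2 := by omega
  interval_cases r₂
  · obtain rfl : r₁ = 4 := by omega
    exact has_ok chk4a ok4a_4 _ (by decide)
  · obtain rfl : r₁ = 2 := by omega
    exact has_ok chk4a ok4a_2 _ (by decide)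
  · obtain rfl : r₁ = 0 := by omega
    exact has_ok chk4a ok4a_0 _ (by decide)

theorem has5 (r₁ r₂ : ℕ) (h : r₁ + 2 * r₂ = 5) :
    HasDat 5 (excess 5 r₁) r₁ := by
  have h2 : r₂ ≤ 2 := by omega
  interval_cases r₂
  · obtain rfl : r₁ = 5 := by omega
    exact has_ok chk5a ok5a_5 _ (by decide)
  · obtain rfl : r₁ = 3 := by omega
    exact has_ok chk5a ok5a_3 _ (by decide)
  · obtain rfl : r₁ = 1 := by omega
    exact has_ok chk5a ok5a_1 _ (by decide)

theorem has6 (r₁ r₂ : ℕ) (h : r₁ + 2 * r₂ = 6) :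
    HasDat 6 (excess 6 r₁) r₁ := by
  have h2 : r₂ ≤ 3 := by omega
  interval_cases r₂
  · obtain rfl : r₁ = 6 := by omega
    exact has_ok chk6a ok6a_6 _ (by decide)
  · obtain rfl : r₁ = 4 := by omega
    exact has_ok chk6a ok6a_4 _ (by decide)
  · obtain rfl : r₁ = 2 := by omega
    exact has_ok chk6a ok6a_2 _ (by decide)
  · obtain rfl : r₁ = 0 := by omega
    exact has_ok chk6a ok6a_0 _ (by decide)

theorem has7 (r₁ r₂ : ℕ) (h : r₁ + 2 * r₂ = 7) :
    HasDat 7 (excess 7 r₁) r₁ := by
  have h2 : r₂ ≤ 3 := by omega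
  interval_cases r₂
  · obtain rfl : r₁ = 7 := by omega
    exact has_ok chk7a ok7a_7 _ (by decide)
  · obtain rfl : r₁ = 5 := by omega
    exact has_ok chk7a ok7a_5 _ (by decide)
  · obtain rfl : r₁ = 3 := by omega
    exact has_ok chk7a ok7a_3 _ (by decide)
  · obtain rfl : r₁ = 1 := by omega
    exact has_ok chk7a ok7a_1 _ (by decide)

theorem has8 (r₁ r₂ : ℕ) (h : r₁ + 2 * r₂ = 8) :
    HasDat 8 (excess 8 r₁) r₁ := by
  have h2 : r₂ ≤ 4 := by omega
  interval_cases r₂
  · obtain rfl : r₁ = 8 := by omega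
    exact has_ok chk8a ok8a_8 _ (by decide)
  · obtain rfl : r₁ = 6 := by omega
    exact has_ok chk8b ok8b_6 _ (by decide)
  · obtain rfl : r₁ = 4 := by omega
    exact has_ok chk8a ok8a_4 _ (by decide)
  · obtain rfl : r₁ = 2 := by omega
    exact has_ok chk8b ok8b_2 _ (by decide)
  · obtain rfl : r₁ = 0 := by omega
    exact has_ok chk8a ok8a_0 _ (by decide)

theorem has9 (r₁ r₂ : ℕ) (h : r₁ + 2 * r₂ = 9) :
    HasDat 9 (excess 9 r₁) r₁ := by
  have h2 : r₂ ≤ 4 := by omega
  interval_cases r₂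
  · obtain rfl : r₁ = 9 := by omega
    exact has_ok chk9a ok9a_9 _ (by decide)
  · obtain rfl : r₁ = 7 := by omega
    exact has_ok chk9a ok9a_7 _ (by decide)
  · obtain rfl : r₁ = 5 := by omega
    exact has_ok chk9a ok9a_5 _ (by decide)
  · obtain rfl : r₁ = 3 := by omega
    exact has_ok chk9a ok9a_3 _ (by decide)
  · obtain rfl : r₁ = 1 := by omega
    exact has_ok chk9a ok9a_1 _ (by decide)

theorem has10 (r₁ r₂ : ℕ) (h : r₁ + 2 * r₂ = 10) :
    HasDat 10 (excess 10 r₁) r₁ := by
  have h2 : r₂ ≤ 5 := by omega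
  interval_cases r₂
  · obtain rfl : r₁ = 10 := by omega
    exact has_ok chk10a ok10a_10 _ (by decide)
  · obtain rfl : r₁ = 8 := by omega
    exact has_ok chk10a ok10a_8 _ (by decide)
  · obtain rfl : r₁ = 6 := by omega
    exact has_ok chk10b ok10b_6 _ (by decide)
  · obtain rfl : r₁ = 4 := by omega
    exact has_ok chk10a ok10a_4 _ (by decide)
  · obtain rfl : r₁ = 2 := by omega
    exact has_ok chk10b ok10b_2 _ (by decide)
  · obtain rfl : r₁ = 0 := by omega
    exact has_ok chk10a ok10a_0 _ (by decide)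

theorem has11 (r₁ r₂ : ℕ) (h : r₁ + 2 * r₂ = 11) :
    HasDat 11 (excess 11 r₁) r₁ := by
  have h2 : r₂ ≤ 5 := by omega
  interval_cases r₂
  · obtain rfl : r₁ = 11 := by omega
    exact has_ok chk11a ok11a_11 _ (by decide)
  · obtain rfl : r₁ = 9 := by omega
    exact has_ok chk11a ok11a_9 _ (by decide)
  · obtain rfl : r₁ = 7 := by omega
    exact has_ok chk11a ok11a_7 _ (by decide)
  · obtain rfl : r₁ = 5 := by omega
    exact has_ok chk11a ok11a_5 _ (by decide)
  · obtain rfl : r₁ = 3 := by omega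
    exact has_ok chk11a ok11a_3 _ (by decide)
  · obtain rfl : r₁ = 1 := by omega
    exact has_ok chk11a ok11a_1 _ (by decide)

theorem has12 (r₁ r₂ : ℕ) (h : r₁ + 2 * r₂ = 12) :
    HasDat 12 (excess 12 r₁) r₁ := by
  have h2 : r₂ ≤ 6 := by omega
  interval_cases r₂
  · obtain rfl : r₁ = 12 := by omega
    exact has_ok chk12a ok12a_12 _ (by decide)
  · obtain rfl : r₁ = 10 := by omega
    exact has_ok chk12b ok12b_10 _ (by decide)
  · obtain rfl : r₁ = 8 := by omega
    exact has_ok chk12a ok12a_8 _ (by decide)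
  · obtain rfl : r₁ = 6 := by omega
    exact has_ok chk12b ok12b_6 _ (by decide)
  · obtain rfl : r₁ = 4 := by omega
    exact has_ok chk12a ok12a_4 _ (by decide)
  · obtain rfl : r₁ = 2 := by omega
    exact has_ok chk12b ok12b_2 _ (by decide)
  · obtain rfl : r₁ = 0 := by omega
    exact has_ok chk12a ok12a_0 _ (by decide)

theorem has13 (r₁ r₂ : ℕ) (h : r₁ + 2 * r₂ = 13) :
    HasDat 13 (excess 13 r₁) r₁ := by
  have h2 : r₂ ≤ 6 := by omega
  interval_cases r₂
  · obtain rfl : r₁ = 13 := by omega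
    exact has_ok chk13a ok13a_13 _ (by decide)
  · obtain rfl : r₁ = 11 := by omega
    exact has_ok chk13a ok13a_11 _ (by decide)
  · obtain rfl : r₁ = 9 := by omega
    exact has_ok chk13a ok13a_9 _ (by decide)
  · obtain rfl : r₁ = 7 := by omega
    exact has_ok chk13a ok13a_7 _ (by decide)
  · obtain rfl : r₁ = 5 := by omega
    exact has_ok chk13a ok13a_5 _ (by decide)
  · obtain rfl : r₁ = 3 := by omega
    exact has_ok chk13a ok13a_3 _ (by decide)
  · obtain rfl : r₁ = 1 := by omega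
    exact has_ok chk13a ok13a_1 _ (by decide)

theorem has14 (r₁ r₂ : ℕ) (h : r₁ + 2 * r₂ = 14) :
    HasDat 14 (excess 14 r₁) r₁ := by
  have h2 : r₂ ≤ 7 := by omega
  interval_cases r₂
  · obtain rfl : r₁ = 14 := by omega
    exact has_ok chk14a ok14a_14 _ (by decide)
  · obtain rfl : r₁ = 12 := by omega
    exact has_ok chk14c ok14c_12 _ (by decide)
  · obtain rfl : r₁ = 10 := by omega
    exact has_ok chk14a ok14a_10 _ (by decide)
  · obtain rfl : r₁ = 8 := by omega
    exact has_ok chk14a ok14a_8 _ (by decide)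
  · obtain rfl : r₁ = 6 := by omega
    exact has_ok chk14b ok14b_6 _ (by decide)
  · obtain rfl : r₁ = 4 := by omega
    exact has_ok chk14a ok14a_4 _ (by decide)
  · obtain rfl : r₁ = 2 := by omega
    exact has_ok chk14b ok14b_2 _ (by decide)
  · obtain rfl : r₁ = 0 := by omega
    exact has_ok chk14a ok14a_0 _ (by decide)

theorem has15 (r₁ r₂ : ℕ) (h : r₁ + 2 * r₂ = 15) :
    HasDat 15 (excess 15 r₁) r₁ := by
  have h2 : r₂ ≤ 7 := by omega
  interval_cases r₂
  · obtain rfl : r₁ = 15 := by omega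
    exact has_ok chk15a ok15a_15 _ (by decide)
  · obtain rfl : r₁ = 13 := by omega
    exact has_ok chk15a ok15a_13 _ (by decide)
  · obtain rfl : r₁ = 11 := by omega
    exact has_ok chk15a ok15a_11 _ (by decide)
  · obtain rfl : r₁ = 9 := by omega
    exact has_ok chk15a ok15a_9 _ (by decide)
  · obtain rfl : r₁ = 7 := by omega
    exact has_ok chk15a ok15a_7 _ (by decide)
  · obtain rfl : r₁ = 5 := by omega
    exact has_ok chk15a ok15a_5 _ (by decide)
  · obtain rfl : r₁ = 3 := by omega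
    exact has_ok chk15a ok15a_3 _ (by decide)
  · obtain rfl : r₁ = 1 := by omega
    exact has_ok chk15a ok15a_1 _ (by decide)

theorem has16 (r₁ r₂ : ℕ) (h : r₁ + 2 * r₂ = 16) :
    HasDat 16 (excess 16 r₁) r₁ := by
  have h2 : r₂ ≤ 8 := by omega
  interval_cases r₂
  · obtain rfl : r₁ = 16 := by omega
    exact has_ok chk16a ok16a_16 _ (by decide)
  · obtain rfl : r₁ = 14 := by omega
    exact has_ok chk16b ok16b_14 _ (by decide)
  · obtain rfl : r₁ = 12 := by omega
    exact has_ok chk16a ok16a_12 _ (by decide)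
  · obtain rfl : r₁ = 10 := by omega
    exact has_ok chk16b ok16b_10 _ (by decide)
  · obtain rfl : r₁ = 8 := by omega
    exact has_ok chk16a ok16a_8 _ (by decide)
  · obtain rfl : r₁ = 6 := by omega
    exact has_ok chk16b ok16b_6 _ (by decide)
  · obtain rfl : r₁ = 4 := by omega
    exact has_ok chk16a ok16a_4 _ (by decide)
  · obtain rfl : r₁ = 2 := by omega
    exact has_ok chk16b ok16b_2 _ (by decide)
  · obtain rfl : r₁ = 0 := by omega
    exact has_ok chk16a ok16a_0 _ (by decide)

theorem has17 (r₁ r₂ : ℕ) (h : r₁ + 2 * r₂ = 17) :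
    HasDat 17 (excess 17 r₁) r₁ := by
  have h2 : r₂ ≤ 8 := by omega
  interval_cases r₂
  · obtain rfl : r₁ = 17 := by omega
    exact has_ok chk17a ok17a_17 _ (by decide)
  · obtain rfl : r₁ = 15 := by omega
    exact has_ok chk17a ok17a_15 _ (by decide)
  · obtain rfl : r₁ = 13 := by omega
    exact has_ok chk17a ok17a_13 _ (by decide)
  · obtain rfl : r₁ = 11 := by omega
    exact has_ok chk17a ok17a_11 _ (by decide)
  · obtain rfl : r₁ = 9 := by omega
    exact has_ok chk17a ok17a_9 _ (by decide)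
  · obtain rfl : r₁ = 7 := by omega
    exact has_ok chk17a ok17a_7 _ (by decide)
  · obtain rfl : r₁ = 5 := by omega
    exact has_ok chk17a ok17a_5 _ (by decide)
  · obtain rfl : r₁ = 3 := by omega
    exact has_ok chk17a ok17a_3 _ (by decide)
  · obtain rfl : r₁ = 1 := by omega
    exact has_ok chk17a ok17a_1 _ (by decide)

theorem has18 (r₁ r₂ : ℕ) (h : r₁ + 2 * r₂ = 18) :
    HasDat 18 (excess 18 r₁) r₁ := by
  have h2 : r₂ ≤ 9 := by omega
  interval_cases r₂
  · obtain rfl : r₁ = 18 := by omega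
    exact has_ok chk18a ok18a_18 _ (by decide)
  · obtain rfl : r₁ = 16 := by omega
    exact has_ok chk18a ok18a_16 _ (by decide)
  · obtain rfl : r₁ = 14 := by omega
    exact has_ok chk18b ok18b_14 _ (by decide)
  · obtain rfl : r₁ = 12 := by omega
    exact has_ok chk18a ok18a_12 _ (by decide)
  · obtain rfl : r₁ = 10 := by omega
    exact has_ok chk18b ok18b_10 _ (by decide)
  · obtain rfl : r₁ = 8 := by omega
    exact has_ok chk18a ok18a_8 _ (by decide)
  · obtain rfl : r₁ = 6 := by omega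
    exact has_ok chk18b ok18b_6 _ (by decide)
  · obtain rfl : r₁ = 4 := by omega
    exact has_ok chk18a ok18a_4 _ (by decide)
  · obtain rfl : r₁ = 2 := by omega
    exact has_ok chk18c ok18c_2 _ (by decide)
  · obtain rfl : r₁ = 0 := by omega
    exact has_ok chk18a ok18a_0 _ (by decide)

theorem has19 (r₁ r₂ : ℕ) (h : r₁ + 2 * r₂ = 19) :
    HasDat 19 (excess 19 r₁) r₁ := by
  have h2 : r₂ ≤ 9 := by omega
  interval_cases r₂
  · obtain rfl : r₁ = 19 := by omega
    exact has_ok chk19a ok19a_19 _ (by decide)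
  · obtain rfl : r₁ = 17 := by omega
    exact has_ok chk19a ok19a_17 _ (by decide)
  · obtain rfl : r₁ = 15 := by omega
    exact has_ok chk19a ok19a_15 _ (by decide)
  · obtain rfl : r₁ = 13 := by omega
    exact has_ok chk19a ok19a_13 _ (by decide)
  · obtain rfl : r₁ = 11 := by omega
    exact has_ok chk19a ok19a_11 _ (by decide)
  · obtain rfl : r₁ = 9 := by omega
    exact has_ok chk19a ok19a_9 _ (by decide)
  · obtain rfl : r₁ = 7 := by omega
    exact has_ok chk19a ok19a_7 _ (by decide)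
  · obtain rfl : r₁ = 5 := by omega
    exact has_ok chk19a ok19a_5 _ (by decide)
  · obtain rfl : r₁ = 3 := by omega
    exact has_ok chk19a ok19a_3 _ (by decide)
  · obtain rfl : r₁ = 1 := by omega
    exact has_ok chk19a ok19a_1 _ (by decide)

theorem has20 (r₁ r₂ : ℕ) (h : r₁ + 2 * r₂ = 20) :
    HasDat 20 (excess 20 r₁) r₁ := by
  have h2 : r₂ ≤ 10 := by omega
  interval_cases r₂
  · obtain rfl : r₁ = 20 := by omega
    exact has_ok chk20a ok20a_20 _ (by decide)
  · obtain rfl : r₁ = 18 := by omega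
    exact has_ok chk20b ok20b_18 _ (by decide)
  · obtain rfl : r₁ = 16 := by omega
    exact has_ok chk20a ok20a_16 _ (by decide)
  · obtain rfl : r₁ = 14 := by omega
    exact has_ok chk20b ok20b_14 _ (by decide)
  · obtain rfl : r₁ = 12 := by omega
    exact has_ok chk20a ok20a_12 _ (by decide)
  · obtain rfl : r₁ = 10 := by omega
    exact has_ok chk20b ok20b_10 _ (by decide)
  · obtain rfl : r₁ = 8 := by omega
    exact has_ok chk20a ok20a_8 _ (by decide)
  · obtain rfl : r₁ = 6 := by omega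
    exact has_ok chk20b ok20b_6 _ (by decide)
  · obtain rfl : r₁ = 4 := by omega
    exact has_ok chk20a ok20a_4 _ (by decide)
  · obtain rfl : r₁ = 2 := by omega
    exact has_ok chk20b ok20b_2 _ (by decide)
  · obtain rfl : r₁ = 0 := by omega
    exact has_ok chk20a ok20a_0 _ (by decide)

theorem has21 (r₁ r₂ : ℕ) (h : r₁ + 2 * r₂ = 21) :
    HasDat 21 (excess 21 r₁) r₁ := by
  have h2 : r₂ ≤ 10 := by omega
  interval_cases r₂
  · obtain rfl : r₁ = 21 := by omega
    exact has_ok chk21a ok21a_21 _ (by decide)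
  · obtain rfl : r₁ = 19 := by omega
    exact has_ok chk21a ok21a_19 _ (by decide)
  · obtain rfl : r₁ = 17 := by omega
    exact has_ok chk21a ok21a_17 _ (by decide)
  · obtain rfl : r₁ = 15 := by omega
    exact has_ok chk21a ok21a_15 _ (by decide)
  · obtain rfl : r₁ = 13 := by omega
    exact has_ok chk21a ok21a_13 _ (by decide)
  · obtain rfl : r₁ = 11 := by omega
    exact has_ok chk21a ok21a_11 _ (by decide)
  · obtain rfl : r₁ = 9 := by omega
    exact has_ok chk21a ok21a_9 _ (by decide)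
  · obtain rfl : r₁ = 7 := by omega
    exact has_ok chk21a ok21a_7 _ (by decide)
  · obtain rfl : r₁ = 5 := by omega
    exact has_ok chk21a ok21a_5 _ (by decide)
  · obtain rfl : r₁ = 3 := by omega
    exact has_ok chk21a ok21a_3 _ (by decide)
  · obtain rfl : r₁ = 1 := by omega
    exact has_ok chk21a ok21a_1 _ (by decide)

theorem has22 (r₁ r₂ : ℕ) (h : r₁ + 2 * r₂ = 22) :
    HasDat 22 (excess 22 r₁) r₁ := by
  have h2 : r₂ ≤ 11 := by omega
  interval_cases r₂
  · obtain rfl : r₁ = 22 := by omega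
    exact has_ok chk22a ok22a_22 _ (by decide)
  · obtain rfl : r₁ = 20 := by omega
    exact has_ok chk22b ok22b_20 _ (by decide)
  · obtain rfl : r₁ = 18 := by omega
    exact has_ok chk22a ok22a_18 _ (by decide)
  · obtain rfl : r₁ = 16 := by omega
    exact has_ok chk22b ok22b_16 _ (by decide)
  · obtain rfl : r₁ = 14 := by omega
    exact has_ok chk22a ok22a_14 _ (by decide)
  · obtain rfl : r₁ = 12 := by omega
    exact has_ok chk22b ok22b_12 _ (by decide)
  · obtain rfl : r₁ = 10 := by omega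
    exact has_ok chk22a ok22a_10 _ (by decide)
  · obtain rfl : r₁ = 8 := by omega
    exact has_ok chk22a ok22a_8 _ (by decide)
  · obtain rfl : r₁ = 6 := by omega
    exact has_ok chk22c ok22c_6 _ (by decide)
  · obtain rfl : r₁ = 4 := by omega
    exact has_ok chk22a ok22a_4 _ (by decide)
  · obtain rfl : r₁ = 2 := by omega
    exact has_ok chk22c ok22c_2 _ (by decide)
  · obtain rfl : r₁ = 0 := by omega
    exact has_ok chk22a ok22a_0 _ (by decide)

theorem has23 (r₁ r₂ : ℕ) (h : r₁ + 2 * r₂ = 23) :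
    HasDat 23 (excess 23 r₁) r₁ := by
  have h2 : r₂ ≤ 11 := by omega
  interval_cases r₂
  · obtain rfl : r₁ = 23 := by omega
    exact has_ok chk23a ok23a_23 _ (by decide)
  · obtain rfl : r₁ = 21 := by omega
    exact has_ok chk23a ok23a_21 _ (by decide)
  · obtain rfl : r₁ = 19 := by omega
    exact has_ok chk23a ok23a_19 _ (by decide)
  · obtain rfl : r₁ = 17 := by omega
    exact has_ok chk23a ok23a_17 _ (by decide)
  · obtain rfl : r₁ = 15 := by omega
    exact has_ok chk23a ok23a_15 _ (by decide)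
  · obtain rfl : r₁ = 13 := by omega
    exact has_ok chk23a ok23a_13 _ (by decide)
  · obtain rfl : r₁ = 11 := by omega
    exact has_ok chk23a ok23a_11 _ (by decide)
  · obtain rfl : r₁ = 9 := by omega
    exact has_ok chk23a ok23a_9 _ (by decide)
  · obtain rfl : r₁ = 7 := by omega
    exact has_ok chk23a ok23a_7 _ (by decide)
  · obtain rfl : r₁ = 5 := by omega
    exact has_ok chk23a ok23a_5 _ (by decide)
  · obtain rfl : r₁ = 3 := by omega
    exact has_ok chk23a ok23a_3 _ (by decide)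
  · obtain rfl : r₁ = 1 := by omega
    exact has_ok chk23a ok23a_1 _ (by decide)

theorem has24 (r₁ r₂ : ℕ) (h : r₁ + 2 * r₂ = 24) :
    HasDat 24 (excess 24 r₁) r₁ := by
  have h2 : r₂ ≤ 12 := by omega
  interval_cases r₂
  · obtain rfl : r₁ = 24 := by omega
    exact has_ok chk24a ok24a_24 _ (by decide)
  · obtain rfl : r₁ = 22 := by omega
    exact has_ok chk24b ok24b_22 _ (by decide)
  · obtain rfl : r₁ = 20 := by omega
    exact has_ok chk24a ok24a_20 _ (by decide)
  · obtain rfl : r₁ = 18 := by omega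
    exact has_ok chk24b ok24b_18 _ (by decide)
  · obtain rfl : r₁ = 16 := by omega
    exact has_ok chk24a ok24a_16 _ (by decide)
  · obtain rfl : r₁ = 14 := by omega
    exact has_ok chk24b ok24b_14 _ (by decide)
  · obtain rfl : r₁ = 12 := by omega
    exact has_ok chk24a ok24a_12 _ (by decide)
  · obtain rfl : r₁ = 10 := by omega
    exact has_ok chk24b ok24b_10 _ (by decide)
  · obtain rfl : r₁ = 8 := by omega
    exact has_ok chk24a ok24a_8 _ (by decide)
  · obtain rfl : r₁ = 6 := by omega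
    exact has_ok chk24b ok24b_6 _ (by decide)
  · obtain rfl : r₁ = 4 := by omega
    exact has_ok chk24a ok24a_4 _ (by decide)
  · obtain rfl : r₁ = 2 := by omega
    exact has_ok chk24b ok24b_2 _ (by decide)
  · obtain rfl : r₁ = 0 := by omega
    exact has_ok chk24a ok24a_0 _ (by decide)

theorem has25 (r₁ r₂ : ℕ) (h : r₁ + 2 * r₂ = 25) :
    HasDat 25 (excess 25 r₁) r₁ := by
  have h2 : r₂ ≤ 12 := by omega
  interval_cases r₂
  · obtain rfl : r₁ = 25 := by omega
    exact has_ok chk25a ok25a_25 _ (by decide)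
  · obtain rfl : r₁ = 23 := by omega
    exact has_ok chk25a ok25a_23 _ (by decide)
  · obtain rfl : r₁ = 21 := by omega
    exact has_ok chk25a ok25a_21 _ (by decide)
  · obtain rfl : r₁ = 19 := by omega
    exact has_ok chk25a ok25a_19 _ (by decide)
  · obtain rfl : r₁ = 17 := by omega
    exact has_ok chk25a ok25a_17 _ (by decide)
  · obtain rfl : r₁ = 15 := by omega
    exact has_ok chk25a ok25a_15 _ (by decide)
  · obtain rfl : r₁ = 13 := by omega
    exact has_ok chk25a ok25a_13 _ (by decide)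
  · obtain rfl : r₁ = 11 := by omega
    exact has_ok chk25a ok25a_11 _ (by decide)
  · obtain rfl : r₁ = 9 := by omega
    exact has_ok chk25a ok25a_9 _ (by decide)
  · obtain rfl : r₁ = 7 := by omega
    exact has_ok chk25a ok25a_7 _ (by decide)
  · obtain rfl : r₁ = 5 := by omega
    exact has_ok chk25a ok25a_5 _ (by decide)
  · obtain rfl : r₁ = 3 := by omega
    exact has_ok chk25a ok25a_3 _ (by decide)
  · obtain rfl : r₁ = 1 := by omega
    exact has_ok chk25a ok25a_1 _ (by decide)

theorem has26 (r₁ r₂ : ℕ) (h : r₁ + 2 * r₂ = 26) :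
    HasDat 26 (excess 26 r₁) r₁ := by
  have h2 : r₂ ≤ 13 := by omega
  interval_cases r₂
  · obtain rfl : r₁ = 26 := by omega
    exact has_ok chk26a ok26a_26 _ (by decide)
  · obtain rfl : r₁ = 24 := by omega
    exact has_ok chk26a ok26a_24 _ (by decide)
  · obtain rfl : r₁ = 22 := by omega
    exact has_ok chk26b ok26b_22 _ (by decide)
  · obtain rfl : r₁ = 20 := by omega
    exact has_ok chk26a ok26a_20 _ (by decide)
  · obtain rfl : r₁ = 18 := by omega
    exact has_ok chk26b ok26b_18 _ (by decide)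
  · obtain rfl : r₁ = 16 := by omega
    exact has_ok chk26a ok26a_16 _ (by decide)
  · obtain rfl : r₁ = 14 := by omega
    exact has_ok chk26b ok26b_14 _ (by decide)
  · obtain rfl : r₁ = 12 := by omega
    exact has_ok chk26a ok26a_12 _ (by decide)
  · obtain rfl : r₁ = 10 := by omega
    exact has_ok chk26b ok26b_10 _ (by decide)
  · obtain rfl : r₁ = 8 := by omega
    exact has_ok chk26a ok26a_8 _ (by decide)
  · obtain rfl : r₁ = 6 := by omega
    exact has_ok chk26b ok26b_6 _ (by decide)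
  · obtain rfl : r₁ = 4 := by omega
    exact has_ok chk26a ok26a_4 _ (by decide)
  · obtain rfl : r₁ = 2 := by omega
    exact has_ok chk26c ok26c_2 _ (by decide)
  · obtain rfl : r₁ = 0 := by omega
    exact has_ok chk26a ok26a_0 _ (by decide)

theorem has27 (r₁ r₂ : ℕ) (h : r₁ + 2 * r₂ = 27) :
    HasDat 27 (excess 27 r₁) r₁ := by
  have h2 : r₂ ≤ 13 := by omega
  interval_cases r₂
  · obtain rfl : r₁ = 27 := by omega
    exact has_ok chk27a ok27a_27 _ (by decide)
  · obtain rfl : r₁ = 25 := by omega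
    exact has_ok chk27a ok27a_25 _ (by decide)
  · obtain rfl : r₁ = 23 := by omega
    exact has_ok chk27a ok27a_23 _ (by decide)
  · obtain rfl : r₁ = 21 := by omega
    exact has_ok chk27a ok27a_21 _ (by decide)
  · obtain rfl : r₁ = 19 := by omega
    exact has_ok chk27a ok27a_19 _ (by decide)
  · obtain rfl : r₁ = 17 := by omega
    exact has_ok chk27a ok27a_17 _ (by decide)
  · obtain rfl : r₁ = 15 := by omega
    exact has_ok chk27a ok27a_15 _ (by decide)
  · obtain rfl : r₁ = 13 := by omega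
    exact has_ok chk27a ok27a_13 _ (by decide)
  · obtain rfl : r₁ = 11 := by omega
    exact has_ok chk27a ok27a_11 _ (by decide)
  · obtain rfl : r₁ = 9 := by omega
    exact has_ok chk27a ok27a_9 _ (by decide)
  · obtain rfl : r₁ = 7 := by omega
    exact has_ok chk27a ok27a_7 _ (by decide)
  · obtain rfl : r₁ = 5 := by omega
    exact has_ok chk27a ok27a_5 _ (by decide)
  · obtain rfl : r₁ = 3 := by omega
    exact has_ok chk27a ok27a_3 _ (by decide)
  · obtain rfl : r₁ = 1 := by omega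
    exact has_ok chk27a ok27a_1 _ (by decide)

theorem has28 (r₁ r₂ : ℕ) (h : r₁ + 2 * r₂ = 28) :
    HasDat 28 (excess 28 r₁) r₁ := by
  have h2 : r₂ ≤ 14 := by omega
  interval_cases r₂
  · obtain rfl : r₁ = 28 := by omega
    exact has_ok chk28a ok28a_28 _ (by decide)
  · obtain rfl : r₁ = 26 := by omega
    exact has_ok chk28b ok28b_26 _ (by decide)
  · obtain rfl : r₁ = 24 := by omega
    exact has_ok chk28a ok28a_24 _ (by decide)
  · obtain rfl : r₁ = 22 := by omega
    exact has_ok chk28b ok28b_22 _ (by decide)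
  · obtain rfl : r₁ = 20 := by omega
    exact has_ok chk28a ok28a_20 _ (by decide)
  · obtain rfl : r₁ = 18 := by omega
    exact has_ok chk28b ok28b_18 _ (by decide)
  · obtain rfl : r₁ = 16 := by omega
    exact has_ok chk28a ok28a_16 _ (by decide)
  · obtain rfl : r₁ = 14 := by omega
    exact has_ok chk28b ok28b_14 _ (by decide)
  · obtain rfl : r₁ = 12 := by omega
    exact has_ok chk28a ok28a_12 _ (by decide)
  · obtain rfl : r₁ = 10 := by omega
    exact has_ok chk28b ok28b_10 _ (by decide)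
  · obtain rfl : r₁ = 8 := by omega
    exact has_ok chk28a ok28a_8 _ (by decide)
  · obtain rfl : r₁ = 6 := by omega
    exact has_ok chk28b ok28b_6 _ (by decide)
  · obtain rfl : r₁ = 4 := by omega
    exact has_ok chk28a ok28a_4 _ (by decide)
  · obtain rfl : r₁ = 2 := by omega
    exact has_ok chk28b ok28b_2 _ (by decide)
  · obtain rfl : r₁ = 0 := by omega
    exact has_ok chk28a ok28a_0 _ (by decide)

theorem has29 (r₁ r₂ : ℕ) (h : r₁ + 2 * r₂ = 29) :
    HasDat 29 (excess 29 r₁) r₁ := by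
  have h2 : r₂ ≤ 14 := by omega
  interval_cases r₂
  · obtain rfl : r₁ = 29 := by omega
    exact has_ok chk29a ok29a_29 _ (by decide)
  · obtain rfl : r₁ = 27 := by omega
    exact has_ok chk29a ok29a_27 _ (by decide)
  · obtain rfl : r₁ = 25 := by omega
    exact has_ok chk29a ok29a_25 _ (by decide)
  · obtain rfl : r₁ = 23 := by omega
    exact has_ok chk29a ok29a_23 _ (by decide)
  · obtain rfl : r₁ = 21 := by omega
    exact has_ok chk29a ok29a_21 _ (by decide)
  · obtain rfl : r₁ = 19 := by omega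
    exact has_ok chk29a ok29a_19 _ (by decide)
  · obtain rfl : r₁ = 17 := by omega
    exact has_ok chk29a ok29a_17 _ (by decide)
  · obtain rfl : r₁ = 15 := by omega
    exact has_ok chk29a ok29a_15 _ (by decide)
  · obtain rfl : r₁ = 13 := by omega
    exact has_ok chk29a ok29a_13 _ (by decide)
  · obtain rfl : r₁ = 11 := by omega
    exact has_ok chk29a ok29a_11 _ (by decide)
  · obtain rfl : r₁ = 9 := by omega
    exact has_ok chk29a ok29a_9 _ (by decide)
  · obtain rfl : r₁ = 7 := by omega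
    exact has_ok chk29a ok29a_7 _ (by decide)
  · obtain rfl : r₁ = 5 := by omega
    exact has_ok chk29a ok29a_5 _ (by decide)
  · obtain rfl : r₁ = 3 := by omega
    exact has_ok chk29a ok29a_3 _ (by decide)
  · obtain rfl : r₁ = 1 := by omega
    exact has_ok chk29a ok29a_1 _ (by decide)

theorem has30 (r₁ r₂ : ℕ) (h : r₁ + 2 * r₂ = 30) :
    HasDat 30 (excess 30 r₁) r₁ := by
  have h2 : r₂ ≤ 15 := by omega
  interval_cases r₂
  · obtain rfl : r₁ = 30 := by omega
    exact has_ok chk30a ok30a_30 _ (by decide)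
  · obtain rfl : r₁ = 28 := by omega
    exact has_ok chk30d ok30d_28 _ (by decide)
  · obtain rfl : r₁ = 26 := by omega
    exact has_ok chk30a ok30a_26 _ (by decide)
  · obtain rfl : r₁ = 24 := by omega
    exact has_ok chk30d ok30d_24 _ (by decide)
  · obtain rfl : r₁ = 22 := by omega
    exact has_ok chk30a ok30a_22 _ (by decide)
  · obtain rfl : r₁ = 20 := by omega
    exact has_ok chk30a ok30a_20 _ (by decide)
  · obtain rfl : r₁ = 18 := by omega
    exact has_ok chk30c ok30c_18 _ (by decide)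
  · obtain rfl : r₁ = 16 := by omega
    exact has_ok chk30a ok30a_16 _ (by decide)
  · obtain rfl : r₁ = 14 := by omega
    exact has_ok chk30c ok30c_14 _ (by decide)
  · obtain rfl : r₁ = 12 := by omega
    exact has_ok chk30a ok30a_12 _ (by decide)
  · obtain rfl : r₁ = 10 := by omega
    exact has_ok chk30b ok30b_10 _ (by decide)
  · obtain rfl : r₁ = 8 := by omega
    exact has_ok chk30a ok30a_8 _ (by decide)
  · obtain rfl : r₁ = 6 := by omega
    exact has_ok chk30b ok30b_6 _ (by decide)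
  · obtain rfl : r₁ = 4 := by omega
    exact has_ok chk30a ok30a_4 _ (by decide)
  · obtain rfl : r₁ = 2 := by omega
    exact has_ok chk30b ok30b_2 _ (by decide)
  · obtain rfl : r₁ = 0 := by omega
    exact has_ok chk30a ok30a_0 _ (by decide)

theorem has_all (n r₁ r₂ : ℕ) (hn : 4 ≤ n) (hn' : n ≤ 30) (hr : r₁ + 2 * r₂ = n) :
    HasDat n (excess n r₁) r₁ := by
  interval_cases n
  · exact has4 r₁ r₂ hr
  · exact has5 r₁ r₂ hr
  · exact has6 r₁ r₂ hr
  · exact has7 r₁ r₂ hr
  · exact has8 r₁ r₂ hr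
  · exact has9 r₁ r₂ hr
  · exact has10 r₁ r₂ hr
  · exact has11 r₁ r₂ hr
  · exact has12 r₁ r₂ hr
  · exact has13 r₁ r₂ hr
  · exact has14 r₁ r₂ hr
  · exact has15 r₁ r₂ hr
  · exact has16 r₁ r₂ hr
  · exact has17 r₁ r₂ hr
  · exact has18 r₁ r₂ hr
  · exact has19 r₁ r₂ hr
  · exact has20 r₁ r₂ hr
  · exact has21 r₁ r₂ hr
  · exact has22 r₁ r₂ hr
  · exact has23 r₁ r₂ hr
  · exact has24 r₁ r₂ hr
  · exact has25 r₁ r₂ hr
  · exact has26 r₁ r₂ hr
  · exact has27 r₁ r₂ hr
  · exact has28 r₁ r₂ hr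
  · exact has29 r₁ r₂ hr
  · exact has30 r₁ r₂ hr

end Pool.Agent.D0H85.CG
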